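import Mathlib

/-!
# Elementary inequalities for exponentials
-/

set_option autoImplicit false

namespace Pool.Agent.Helper80.ET

open Finset

theorem half_sub_le (y : ℝ) (hy : 0 ≤ y) : |(1 / 2 - y) * Real.exp (-y)| ≤ 1 := by
  have h1 := Real.add_one_le_exp y
  have h2 : |1 / 2 - y| ≤ Real.exp y := by
    rw [abs_le]
    constructor <;> linarith
  rw [abs_mul, Real.abs_exp, Real.exp_neg, ← div_eq_mul_inv, div_le_one (Real.exp_pos _)]
  exact h2

theorem half_sub_le' (y : ℝ) (hy : 0 ≤ y) : |(1 / 2 - y) * Real.exp (-y)| ≤ Real.exp (-(y / 2)) := by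
  have h1 := Real.quadratic_le_exp_of_nonneg (x := y / 2) (by linarith)
  have h2 : |1 / 2 - y| ≤ Real.exp (y / 2) := by
    rw [abs_le]
    constructor
    · nlinarith [sq_nonneg (y - 2)]
    · nlinarith
  have h3 : Real.exp (-y) = Real.exp (-(y / 2)) * Real.exp (-(y / 2)) := by
    rw [← Real.exp_add]
    ring_nf
  rw [abs_mul, Real.abs_exp, h3, ← mul_assoc]
  have h4 : |1 / 2 - y| * Real.exp (-(y / 2)) ≤ 1 := by
    rw [Real.exp_neg, ← div_eq_mul_inv, div_le_one (Real.exp_pos _)]
    exact h2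
  have h5 := Real.exp_pos (-(y / 2))
  nlinarith

theorem one_sub_le (y : ℝ) (hy : 0 ≤ y) : |1 - y| * Real.exp (-y) ≤ Real.exp (-(2 * y / 3)) := by
  have h1 := Real.quadratic_le_exp_of_nonneg (x := y / 3) (by linarith)
  have h2 : |1 - y| ≤ Real.exp (y / 3) := by
    rw [abs_le]
    constructor
    · nlinarith [sq_nonneg (y / 3 - 2)]
    · nlinarith
  have h3 : Real.exp (-(2 * y / 3)) = Real.exp (y / 3) * Real.exp (-y) := by
    rw [← Real.exp_add]
    ring_nf
  rw [h3]
  exact mul_le_mul_of_nonneg_right h2 (Real.exp_pos _).le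

theorem self_mul_exp_le (y : ℝ) (hy : 0 ≤ y) : y * Real.exp (-y) ≤ Real.exp (-(y / 2)) := by
  have h1 := Real.quadratic_le_exp_of_nonneg (x := y / 2) (by linarith)
  have h2 : y ≤ Real.exp (y / 2) := by nlinarith [sq_nonneg (y - 2)]
  have h3 : Real.exp (-(y / 2)) = Real.exp (y / 2) * Real.exp (-y) := by
    rw [← Real.exp_add]
    ring_nf
  rw [h3]
  exact mul_le_mul_of_nonneg_right h2 (Real.exp_pos _).le

/-- the function `(1 - x n) exp(-x n)` -/
noncomputable def phi (x n : ℝ) : ℝ := (1 - x * n) * Real.exp (-(x * n))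

theorem phi_abs (x n : ℝ) (hx : 0 ≤ x) (hn : 0 ≤ n) : |phi x n| ≤ Real.exp (-(2 / 3 * x * n)) := by
  unfold phi
  rw [abs_mul, Real.abs_exp]
  have h1 := one_sub_le (x * n) (mul_nonneg hx hn)
  have h2 : 2 * (x * n) / 3 = 2 / 3 * x * n := by ring
  rw [h2] at h1
  exact h1

theorem phi_shift (x n j : ℝ) (hx : 0 ≤ x) (hn : 0 ≤ n) (hj : 0 ≤ j) :
    |phi x n - phi x (n + j)| ≤ 2 * x * j * Real.exp (-(2 / 3 * x * n)) := by
  have h1 : phi x n - phi x (n + j) = (1 - x * n) * Real.exp (-(x * n)) * (1 - Real.exp (-(x * j))) +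
      x * j * (Real.exp (-(x * n)) * Real.exp (-(x * j))) := by
    unfold phi
    have : Real.exp (-(x * (n + j))) = Real.exp (-(x * n)) * Real.exp (-(x * j)) := by
      rw [← Real.exp_add]
      ring_nf
    rw [this]
    ring
  have hxj : 0 ≤ x * j := mul_nonneg hx hj
  have h2 : |1 - Real.exp (-(x * j))| ≤ x * j := by
    have h3 := Real.add_one_le_exp (-(x * j))
    have h4 : Real.exp (-(x * j)) ≤ 1 := Real.exp_le_one_iff.2 (by linarith)
    rw [abs_le]
    constructor <;> linarith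
  have h3 := phi_abs x n hx hn
  unfold phi at h3
  have h4 : Real.exp (-(x * n)) ≤ Real.exp (-(2 / 3 * x * n)) := by
    apply Real.exp_le_exp.2
    nlinarith [mul_nonneg hx hn]
  have h5 : Real.exp (-(x * j)) ≤ 1 := Real.exp_le_one_iff.2 (by linarith)
  rw [h1]
  calc |(1 - x * n) * Real.exp (-(x * n)) * (1 - Real.exp (-(x * j))) +
      x * j * (Real.exp (-(x * n)) * Real.exp (-(x * j)))|
      ≤ |(1 - x * n) * Real.exp (-(x * n))| * |1 - Real.exp (-(x * j))| +
        x * j * (Real.exp (-(x * n)) * Real.exp (-(x * j))) := by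
        refine (abs_add_le _ _).trans ?_
        rw [abs_mul]
        apply add_le_add_right
        rw [abs_of_nonneg (by positivity)]
    _ ≤ Real.exp (-(2 / 3 * x * n)) * (x * j) + x * j * (Real.exp (-(2 / 3 * x * n)) * 1) := by
        apply add_le_add
        · exact mul_le_mul h3 h2 (abs_nonneg _) (Real.exp_pos _).le
        · apply mul_le_mul_of_nonneg_left _ hxj
          exact mul_le_mul h4 h5 (Real.exp_pos _).le (Real.exp_pos _).le
    _ = 2 * x * j * Real.exp (-(2 / 3 * x * n)) := by ring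

theorem geo (b : ℝ) (hb : 0 < b) (K L : ℕ) :
    ∑ n ∈ Ico (K + 1) L, Real.exp (-(b * n)) ≤ Real.exp (-(b * K)) / b := by
  have key : ∀ m : ℕ, ∑ n ∈ Ico (K + 1) (K + 1 + m), Real.exp (-(b * n)) ≤
      (Real.exp (-(b * K)) - Real.exp (-(b * ((K + m : ℕ) : ℝ)))) / b := by
    intro m
    induction m with
    | zero => simp
    | succ m ih =>
      rw [← add_assoc, sum_Ico_succ_top (by omega)]
      have h1 : Real.exp (-(b * ((K + 1 + m : ℕ) : ℝ))) ≤
          (Real.exp (-(b * ((K + m : ℕ) : ℝ))) - Real.exp (-(b * ((K + (m + 1) : ℕ) : ℝ)))) / b := by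
        have e1 : ((K + 1 + m : ℕ) : ℝ) = ((K + (m + 1) : ℕ) : ℝ) := by push_cast; ring
        rw [e1, le_div_iff₀ hb]
        have e2 : Real.exp (-(b * ((K + m : ℕ) : ℝ))) =
            Real.exp (-(b * ((K + (m + 1) : ℕ) : ℝ))) * Real.exp b := by
          rw [← Real.exp_add]
          push_cast
          ring_nf
        rw [e2]
        have h2 := Real.add_one_le_exp b
        have h3 := Real.exp_pos (-(b * ((K + (m + 1) : ℕ) : ℝ)))
        nlinarith
      have h4 := add_le_add ih h1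
      refine h4.trans (le_of_eq ?_)
      ring
  by_cases hKL : K + 1 ≤ L
  · obtain ⟨m, rfl⟩ := Nat.exists_eq_add_of_le hKL
    refine (key m).trans ?_
    apply div_le_div_of_nonneg_right _ hb.le
    have := Real.exp_pos (-(b * ((K + m : ℕ) : ℝ)))
    linarith
  · rw [Ico_eq_empty (by omega), sum_empty]
    positivity

theorem geo_low (b : ℝ) (hb : 0 < b) (K m : ℕ) :
    (Real.exp (-(b * K)) - Real.exp (-(b * ((K + m : ℕ) : ℝ)))) / b ≤
      ∑ n ∈ Ico K (K + m), Real.exp (-(b * n)) := by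
  induction m with
  | zero => simp
  | succ m ih =>
    rw [← add_assoc, sum_Ico_succ_top (by omega)]
    have h1 : (Real.exp (-(b * ((K + m : ℕ) : ℝ))) - Real.exp (-(b * ((K + m + 1 : ℕ) : ℝ)))) / b ≤
        Real.exp (-(b * ((K + m : ℕ) : ℝ))) := by
      rw [div_le_iff₀ hb]
      have e2 : Real.exp (-(b * ((K + m + 1 : ℕ) : ℝ))) =
          Real.exp (-(b * ((K + m : ℕ) : ℝ))) * Real.exp (-b) := by
        rw [← Real.exp_add]
        push_cast
        ring_nf
      rw [e2]
      have h2 := Real.add_one_le_exp (-b)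
      have h3 := Real.exp_pos (-(b * ((K + m : ℕ) : ℝ)))
      nlinarith
    have h4 := add_le_add ih h1
    refine le_trans (le_of_eq ?_) h4
    ring

/-- the sum of `phi` -/
theorem sum_phi (x : ℝ) (hx : 0 < x) (hx1 : x ≤ 1) (N : ℕ) :
    |∑ s ∈ Icc 1 N, phi x s| ≤ 4 + 1 / x * Real.exp (-(x * N / 2)) := by
  have hI : Icc 1 N = Ico (0 + 1) (N + 1) := by
    ext n
    simp only [mem_Icc, mem_Ico]
    omega
  have h1 : ∀ s ∈ Icc 1 N, |phi x s - ((s : ℝ) * Real.exp (-(x * s)) -
      ((s : ℝ) - 1) * Real.exp (-(x * ((s : ℝ) - 1))))| ≤ 2 * (x * Real.exp (-(x / 2 * s))) := by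
    intro s hs
    rw [mem_Icc] at hs
    have hs1 : (1 : ℝ) ≤ s := by exact_mod_cast hs.1
    have e1 : Real.exp (-(x * ((s : ℝ) - 1))) = Real.exp (-(x * s)) * Real.exp x := by
      rw [← Real.exp_add]
      ring_nf
    have e2 : phi x s - ((s : ℝ) * Real.exp (-(x * s)) - ((s : ℝ) - 1) * Real.exp (-(x * ((s : ℝ) - 1)))) =
        Real.exp (-(x * s)) * (((s : ℝ) - 1) * (Real.exp x - 1 - x) - x) := by
      rw [e1]
      unfold phi
      ring
    have h2 : Real.exp x - 1 - x ≤ x ^ 2 := by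
      have := Real.exp_bound' (x := x) hx.le hx1 (n := 2) (by norm_num)
      simp [sum_range_succ, Nat.factorial] at this
      nlinarith
    have h3 : 0 ≤ Real.exp x - 1 - x := by
      have := Real.add_one_le_exp x
      linarith
    have h4 : x * s * Real.exp (-(x * s)) ≤ Real.exp (-(x / 2 * s)) := by
      have := self_mul_exp_le (x * s) (by positivity)
      have e3 : x * s / 2 = x / 2 * s := by ring
      rw [e3] at this
      exact this
    have h5 : Real.exp (-(x * s)) ≤ Real.exp (-(x / 2 * s)) := by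
      apply Real.exp_le_exp.2
      nlinarith
    have h6 := Real.exp_pos (-(x * s))
    rw [e2, abs_mul, abs_of_pos h6]
    have h7 : |((s : ℝ) - 1) * (Real.exp x - 1 - x) - x| ≤ x ^ 2 * s + x := by
      have h8 : ((s : ℝ) - 1) * (Real.exp x - 1 - x) ≤ s * x ^ 2 :=
        mul_le_mul (by linarith) h2 h3 (by linarith)
      have h9 : 0 ≤ ((s : ℝ) - 1) * (Real.exp x - 1 - x) := mul_nonneg (by linarith) h3
      rw [abs_le]
      constructor <;> nlinarith
    calc Real.exp (-(x * s)) * |((s : ℝ) - 1) * (Real.exp x - 1 - x) - x|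
        ≤ Real.exp (-(x * s)) * (x ^ 2 * s + x) := mul_le_mul_of_nonneg_left h7 h6.le
      _ = x * (x * s * Real.exp (-(x * s))) + x * Real.exp (-(x * s)) := by ring
      _ ≤ x * Real.exp (-(x / 2 * s)) + x * Real.exp (-(x / 2 * s)) := by
          apply add_le_add <;> apply mul_le_mul_of_nonneg_left _ hx.le
          · exact h4
          · exact h5
      _ = _ := by ring
  have h2 : ∑ s ∈ Icc 1 N, ((s : ℝ) * Real.exp (-(x * s)) -
      ((s : ℝ) - 1) * Real.exp (-(x * ((s : ℝ) - 1)))) = N * Real.exp (-(x * N)) := by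
    rw [hI]
    induction N with
    | zero => simp
    | succ N ih =>
      have hI' : Icc 1 N = Ico (0 + 1) (N + 1) := by
        ext n
        simp only [mem_Icc, mem_Ico]
        omega
      rw [sum_Ico_succ_top (by omega), ih hI' (fun s hs => h1 s (by
        rw [mem_Icc] at hs ⊢
        omega))]
      push_cast
      have : (N : ℝ) + 1 - 1 = N := by ring
      rw [this]
      ring
  have h3 : |∑ s ∈ Icc 1 N, phi x s - N * Real.exp (-(x * N))| ≤ 4 := by
    rw [← h2, ← sum_sub_distrib]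
    refine (abs_sum_le_sum_abs _ _).trans ((sum_le_sum h1).trans ?_)
    rw [← mul_sum, ← mul_sum, hI]
    have h5 := geo (x / 2) (by positivity) 0 (N + 1)
    rw [Nat.cast_zero, mul_zero, neg_zero, Real.exp_zero] at h5
    have h6 : x * ∑ n ∈ Ico (0 + 1) (N + 1), Real.exp (-(x / 2 * n)) ≤ x * (1 / (x / 2)) :=
      mul_le_mul_of_nonneg_left h5 hx.le
    have h7 : x * (1 / (x / 2)) = 2 := by field_simp
    rw [h7] at h6
    linarith
  have h4 : (N : ℝ) * Real.exp (-(x * N)) ≤ 1 / x * Real.exp (-(x * N / 2)) := by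
    have h5 := self_mul_exp_le (x * N) (by positivity)
    rw [div_mul_eq_mul_div, le_div_iff₀ hx, one_mul]
    calc (N : ℝ) * Real.exp (-(x * N)) * x = x * N * Real.exp (-(x * N)) := by ring
      _ ≤ _ := h5
  have h5 : 0 ≤ (N : ℝ) * Real.exp (-(x * N)) := by positivity
  rw [abs_le] at h3 ⊢
  constructor <;> linarith [h3.1, h3.2]

end Pool.Agent.Helper80.ET
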