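import Pool.Agent.Helper80.ET.Low
import Pool.Agent.Helper80.ET.ExpB

/-!
# Replacing the representation function by its window averages
-/

set_option autoImplicit false

namespace Pool.Agent.Helper80.ET

open Finset MeasureTheory

/-- the window averages of the representation function -/
noncomputable def Rw (S : Finset ℕ) (h s : ℕ) : ℝ := (∑ j ∈ range h, rS S (s + j)) / h

theorem phi_le_one (x n : ℝ) (hx : 0 ≤ x) (hn : 0 ≤ n) : |phi x n| ≤ 1 := by
  refine (phi_abs x n hx hn).trans (Real.exp_le_one_iff.2 ?_)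
  have := mul_nonneg hx hn
  linarith

theorem approx_j (S : Finset ℕ) (N : ℕ) (hS : ∀ a ∈ S, 1 ≤ a ∧ a ≤ N) (C0 : ℝ) (hr : ∀ n, rS S n ≤ C0)
    (h j : ℕ) (hj : j < h) (x : ℝ) (hx : 0 < x) :
    |∑ n ∈ range (2 * N + 1), rS S n * phi x n - ∑ s ∈ Icc 1 N, rS S (s + j) * phi x s| ≤
      4 * h * C0 + 3 / 2 * C0 / x * Real.exp (-(x * N / 2)) := by
  have hC0 : 0 ≤ C0 := (rS_nonneg S 0).trans (hr 0)
  have hI : Icc 1 N = Ico (0 + 1) (N + 1) := by
    ext n
    simp only [mem_Icc, mem_Ico]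
    omega
  set f : ℕ → ℝ := fun n => rS S n * phi x n with hf
  have h1 : ∑ n ∈ range (2 * N + 1), f n = ∑ n ∈ range (2 * N + 1 + h), f n := by
    rw [← sum_range_add_sum_Ico f (show 2 * N + 1 ≤ 2 * N + 1 + h by omega)]
    have : ∑ n ∈ Ico (2 * N + 1) (2 * N + 1 + h), f n = 0 := by
      apply sum_eq_zero
      intro n hn
      rw [mem_Ico] at hn
      simp only [hf]
      rw [rS_zero_of_large S N hS n hn.1, zero_mul]
    rw [this, add_zero]
  have h2 : ∑ n ∈ range (2 * N + 1 + h), f n = ∑ n ∈ range (1 + j), f n +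
      ∑ n ∈ Ico (1 + j) (N + j + 1), f n + ∑ n ∈ Ico (N + j + 1) (2 * N + 1 + h), f n := by
    rw [sum_range_add_sum_Ico f (show 1 + j ≤ N + j + 1 by omega),
      sum_range_add_sum_Ico f (show N + j + 1 ≤ 2 * N + 1 + h by omega)]
  have h3 : ∑ n ∈ Ico (1 + j) (N + j + 1), f n = ∑ s ∈ Icc 1 N, f (s + j) := by
    rw [hI, zero_add, show N + j + 1 = (N + 1) + j by ring, sum_Ico_add']
  have h4 : ∑ n ∈ range (2 * N + 1), rS S n * phi x n - ∑ s ∈ Icc 1 N, rS S (s + j) * phi x s =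
      ∑ n ∈ range (1 + j), f n + ∑ n ∈ Ico (N + j + 1) (2 * N + 1 + h), f n -
        ∑ s ∈ Icc 1 N, rS S (s + j) * (phi x s - phi x (s + j)) := by
    have h5 : ∑ n ∈ range (2 * N + 1), rS S n * phi x n = ∑ n ∈ range (2 * N + 1), f n := rfl
    rw [h5, h1, h2, h3]
    have h6 : ∑ s ∈ Icc 1 N, rS S (s + j) * (phi x s - phi x (s + j)) =
        ∑ s ∈ Icc 1 N, rS S (s + j) * phi x s - ∑ s ∈ Icc 1 N, f (s + j) := by
      rw [← sum_sub_distrib]
      apply sum_congr rfl
      intro s _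
      simp only [hf]
      push_cast
      ring
    rw [h6]
    ring
  have hfa : ∀ n, |f n| ≤ C0 * Real.exp (-(2 / 3 * x * n)) := by
    intro n
    simp only [hf]
    rw [abs_mul, abs_of_nonneg (rS_nonneg S n)]
    exact mul_le_mul (hr n) (phi_abs x n hx.le (Nat.cast_nonneg n)) (abs_nonneg _) hC0
  have h5 : |∑ n ∈ range (1 + j), f n| ≤ h * C0 := by
    refine (abs_sum_le_sum_abs _ _).trans ?_
    have h6 : ∀ n ∈ range (1 + j), |f n| ≤ C0 := by
      intro n _
      refine (hfa n).trans ?_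
      have h7 : Real.exp (-(2 / 3 * x * n)) ≤ 1 := Real.exp_le_one_iff.2 (by
        have := mul_nonneg hx.le (Nat.cast_nonneg (α := ℝ) n)
        linarith)
      nlinarith
    refine (sum_le_sum h6).trans ?_
    rw [sum_const, card_range, nsmul_eq_mul]
    apply mul_le_mul_of_nonneg_right _ hC0
    exact_mod_cast (by omega : 1 + j ≤ h)
  have h6 : |∑ n ∈ Ico (N + j + 1) (2 * N + 1 + h), f n| ≤ 3 / 2 * C0 / x * Real.exp (-(x * N / 2)) := by
    refine (abs_sum_le_sum_abs _ _).trans ((sum_le_sum fun n _ => hfa n).trans ?_)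
    rw [← mul_sum]
    have h7 := geo (2 / 3 * x) (by positivity) (N + j) (2 * N + 1 + h)
    have h8 : Real.exp (-(2 / 3 * x * ((N + j : ℕ) : ℝ))) ≤ Real.exp (-(x * N / 2)) := by
      apply Real.exp_le_exp.2
      push_cast
      have := mul_nonneg hx.le (Nat.cast_nonneg (α := ℝ) N)
      have := mul_nonneg hx.le (Nat.cast_nonneg (α := ℝ) j)
      nlinarith
    calc C0 * ∑ n ∈ Ico (N + j + 1) (2 * N + 1 + h), Real.exp (-(2 / 3 * x * n))
        ≤ C0 * (Real.exp (-(x * N / 2)) / (2 / 3 * x)) := by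
          apply mul_le_mul_of_nonneg_left _ hC0
          exact h7.trans (div_le_div_of_nonneg_right h8 (by positivity))
      _ = _ := by
          field_simp
  have h7 : |∑ s ∈ Icc 1 N, rS S (s + j) * (phi x s - phi x (s + j))| ≤ 3 * h * C0 := by
    refine (abs_sum_le_sum_abs _ _).trans ?_
    have h8 : ∀ s ∈ Icc 1 N, |rS S (s + j) * (phi x s - phi x (s + j))| ≤
        C0 * (2 * x * j) * Real.exp (-(2 / 3 * x * s)) := by
      intro s _
      rw [abs_mul, abs_of_nonneg (rS_nonneg S _), mul_assoc]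
      apply mul_le_mul (hr _) _ (abs_nonneg _) hC0
      exact phi_shift x s j hx.le (Nat.cast_nonneg _) (Nat.cast_nonneg _)
    refine (sum_le_sum h8).trans ?_
    rw [← mul_sum, hI]
    have h9 := geo (2 / 3 * x) (by positivity) 0 (N + 1)
    rw [Nat.cast_zero, mul_zero, neg_zero, Real.exp_zero] at h9
    have hjR : (j : ℝ) ≤ h := by exact_mod_cast hj.le
    calc C0 * (2 * x * j) * ∑ n ∈ Ico (0 + 1) (N + 1), Real.exp (-(2 / 3 * x * n))
        ≤ C0 * (2 * x * j) * (1 / (2 / 3 * x)) := mul_le_mul_of_nonneg_left h9 (by positivity)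
      _ = 3 * j * C0 := by
          field_simp
      _ ≤ 3 * h * C0 := by
          apply mul_le_mul_of_nonneg_right _ hC0
          linarith
  rw [h4]
  have h8 := abs_sub (∑ n ∈ range (1 + j), f n + ∑ n ∈ Ico (N + j + 1) (2 * N + 1 + h), f n)
    (∑ s ∈ Icc 1 N, rS S (s + j) * (phi x s - phi x (s + j)))
  have h9 := abs_add_le (∑ n ∈ range (1 + j), f n) (∑ n ∈ Ico (N + j + 1) (2 * N + 1 + h), f n)
  linarith

theorem approx (S : Finset ℕ) (N : ℕ) (hS : ∀ a ∈ S, 1 ≤ a ∧ a ≤ N) (C0 : ℝ) (hr : ∀ n, rS S n ≤ C0)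
    (h : ℕ) (hh : 0 < h) (Rst x : ℝ) (hx : 0 < x) (hx1 : x ≤ 1) :
    |∑ n ∈ range (2 * N + 1), rS S n * phi x n - ∑ s ∈ Icc 1 N, (Rw S h s - Rst) * phi x s| ≤
      (4 * h * C0 + 4 * |Rst|) + (3 / 2 * C0 + |Rst|) / x * Real.exp (-(x * N / 2)) := by
  have hhR : (0 : ℝ) < h := by exact_mod_cast hh
  set E := 4 * h * C0 + 3 / 2 * C0 / x * Real.exp (-(x * N / 2)) with hE
  have h1 : |∑ n ∈ range (2 * N + 1), rS S n * phi x n - ∑ s ∈ Icc 1 N, Rw S h s * phi x s| ≤ E := by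
    have h2 : ∑ n ∈ range (2 * N + 1), rS S n * phi x n - ∑ s ∈ Icc 1 N, Rw S h s * phi x s =
        (∑ j ∈ range h, (∑ n ∈ range (2 * N + 1), rS S n * phi x n -
          ∑ s ∈ Icc 1 N, rS S (s + j) * phi x s)) / h := by
      rw [sum_sub_distrib, sum_const, card_range, nsmul_eq_mul, sub_div,
        mul_div_cancel_left₀ _ hhR.ne']
      congr 1
      rw [sum_comm, sum_div]
      apply sum_congr rfl
      intro s _
      unfold Rw
      rw [← sum_mul]
      ring
    rw [h2, abs_div, abs_of_pos hhR, div_le_iff₀ hhR]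
    refine (abs_sum_le_sum_abs _ _).trans ?_
    refine (sum_le_sum fun j hj => approx_j S N hS C0 hr h j (mem_range.1 hj) x hx).trans ?_
    rw [sum_const, card_range, nsmul_eq_mul, hE]
    apply le_of_eq
    ring
  have h2 := sum_phi x hx hx1 N
  have h3 : ∑ n ∈ range (2 * N + 1), rS S n * phi x n - ∑ s ∈ Icc 1 N, (Rw S h s - Rst) * phi x s =
      (∑ n ∈ range (2 * N + 1), rS S n * phi x n - ∑ s ∈ Icc 1 N, Rw S h s * phi x s) +
        Rst * ∑ s ∈ Icc 1 N, phi x s := by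
    simp only [sub_mul, sum_sub_distrib, mul_sum]
    ring
  rw [h3]
  refine (abs_add_le _ _).trans ?_
  rw [abs_mul]
  have h4 : |Rst| * |∑ s ∈ Icc 1 N, phi x s| ≤ |Rst| * (4 + 1 / x * Real.exp (-(x * N / 2))) :=
    mul_le_mul_of_nonneg_left h2 (abs_nonneg _)
  calc _ ≤ E + |Rst| * (4 + 1 / x * Real.exp (-(x * N / 2))) := add_le_add h1 h4
    _ = _ := by
      rw [hE]
      ring

end Pool.Agent.Helper80.ET
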