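import Pool.Agent.Helper80.ET.Final

/-!
# From unordered representations to the ordered count of a translate
-/

set_option autoImplicit false

namespace Pool.Agent.Helper80.ET

open Finset

open Classical in
/-- the unordered representations: `a ≤ n - a` -/
noncomputable def un (A : Set ℕ) (m : ℕ) : Finset ℕ :=
  (range (m + 1)).filter (fun a => 2 * a ≤ m ∧ a ∈ A ∧ m - a ∈ A)

open Classical in
/-- the ordered representations -/
noncomputable def od (A : Set ℕ) (m : ℕ) : Finset ℕ :=
  (range (m + 1)).filter (fun a => a ∈ A ∧ m - a ∈ A)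

open Classical in
/-- ordered and unordered representations -/
theorem od_eq (A : Set ℕ) (m : ℕ) :
    (od A m).card = 2 * (un A m).card ∨
      (2 ∣ m ∧ m / 2 ∈ A ∧ (od A m).card + 1 = 2 * (un A m).card) := by
  have h1 : od A m = un A m ∪ (od A m).filter (fun a => m < 2 * a) := by
    unfold od un
    ext a
    simp only [mem_union, mem_filter, mem_range]
    constructor
    · rintro ⟨h1, h2, h3⟩
      by_cases hc : 2 * a ≤ m
      · exact Or.inl ⟨h1, hc, h2, h3⟩
      · exact Or.inr ⟨⟨h1, h2, h3⟩, by omega⟩
    · rintro (⟨h1, _, h2, h3⟩ | ⟨⟨h1, h2, h3⟩, _⟩)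
      · exact ⟨h1, h2, h3⟩
      · exact ⟨h1, h2, h3⟩
  have h2 : Disjoint (un A m) ((od A m).filter (fun a => m < 2 * a)) := by
    rw [disjoint_left]
    intro a ha hb
    unfold un at ha
    rw [mem_filter] at ha hb
    omega
  have h3 : (od A m).card = (un A m).card + ((od A m).filter (fun a => m < 2 * a)).card := by
    conv_lhs => rw [h1]
    exact card_union_of_disjoint h2
  have h4 : ((od A m).filter (fun a => m < 2 * a)).card = ((un A m).filter (fun a => 2 * a < m)).card := by
    apply card_bij' (fun a _ => m - a) (fun a _ => m - a)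
    · intro a ha
      unfold od at ha
      simp only [mem_filter, mem_range] at ha
      unfold un
      simp only [mem_filter, mem_range]
      refine ⟨⟨by omega, by omega, ha.1.2.2, ?_⟩, by omega⟩
      have e : m - (m - a) = a := by omega
      rw [e]
      exact ha.1.2.1
    · intro a ha
      unfold un at ha
      simp only [mem_filter, mem_range] at ha
      unfold od
      simp only [mem_filter, mem_range]
      refine ⟨⟨by omega, ha.1.2.2.2, ?_⟩, by omega⟩
      have e : m - (m - a) = a := by omega
      rw [e]
      exact ha.1.2.2.1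
    · intro a ha
      unfold od at ha
      simp only [mem_filter, mem_range] at ha
      omega
    · intro a ha
      unfold un at ha
      simp only [mem_filter, mem_range] at ha
      omega
  by_cases hc : 2 ∣ m ∧ m / 2 ∈ A
  · right
    refine ⟨hc.1, hc.2, ?_⟩
    have h5 : un A m = insert (m / 2) ((un A m).filter (fun a => 2 * a < m)) := by
      ext a
      unfold un
      simp only [mem_insert, mem_filter, mem_range]
      constructor
      · rintro ⟨h1, h2, h3, h4⟩
        by_cases hc' : 2 * a < m
        · exact Or.inr ⟨⟨h1, h2, h3, h4⟩, hc'⟩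
        · left
          omega
      · rintro (h1 | ⟨⟨h1, h2, h3, h4⟩, _⟩)
        · obtain ⟨k, hk⟩ := hc.1
          have e1 : m / 2 = k := by omega
          have e2 : m - a = k := by omega
          refine ⟨by omega, by omega, ?_, ?_⟩
          · rw [h1]
            exact hc.2
          · rw [e2, ← e1]
            exact hc.2
        · exact ⟨h1, h2, h3, h4⟩
    have h6 : m / 2 ∉ (un A m).filter (fun a => 2 * a < m) := by
      rw [mem_filter]
      rintro ⟨_, h7⟩
      obtain ⟨k, hk⟩ := hc.1
      omega
    have h7 : (un A m).card = ((un A m).filter (fun a => 2 * a < m)).card + 1 := by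
      conv_lhs => rw [h5]
      exact card_insert_of_notMem h6
    omega
  · left
    have h5 : (un A m).filter (fun a => 2 * a < m) = un A m := by
      apply filter_true_of_mem
      intro a ha
      by_contra hc'
      apply hc
      unfold un at ha
      simp only [mem_filter, mem_range] at ha
      have e : m / 2 = a := by omega
      refine ⟨⟨a, by omega⟩, ?_⟩
      rw [e]
      exact ha.2.2.1
    rw [h3, h4, h5]
    omega

open Classical in
/-- the truncated translate -/
noncomputable def SN (A : Set ℕ) (N : ℕ) : Finset ℕ := (Icc 1 N).filter (fun a => a - 1 ∈ A)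

theorem rS_card (S : Finset ℕ) (n : ℕ) : rS S n = (((S ×ˢ S).filter (fun p => p.1 + p.2 = n)).card : ℝ) := by
  unfold rS
  rw [card_filter, sum_product]
  push_cast
  rfl

open Classical in
theorem rS_le_od (A : Set ℕ) (N n : ℕ) : rS (SN A N) n ≤ ((od A (n - 2)).card : ℝ) := by
  rw [rS_card]
  have h1 : (((SN A N) ×ˢ (SN A N)).filter (fun p => p.1 + p.2 = n)).card ≤ (od A (n - 2)).card := by
    apply card_le_card_of_injOn (fun p => p.1 - 1)
    · intro p hp
      simp only [coe_filter, mem_product, SN, mem_filter, mem_Icc, Set.mem_setOf_eq] at hp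
      unfold od
      simp only [coe_filter, mem_range, Set.mem_setOf_eq]
      obtain ⟨⟨⟨⟨h1, h2⟩, h3⟩, ⟨h4, h5⟩, h6⟩, h7⟩ := hp
      refine ⟨by omega, h3, ?_⟩
      have e : n - 2 - (p.1 - 1) = p.2 - 1 := by omega
      rw [e]
      exact h6
    · intro p hp q hq hpq
      simp only [coe_filter, mem_product, SN, mem_filter, mem_Icc, Set.mem_setOf_eq] at hp hq
      simp only at hpq
      ext
      · omega
      · omega
  exact_mod_cast h1

open Classical in
theorem rS_eq_od (A : Set ℕ) (N n : ℕ) (hn : 2 ≤ n) (hnN : n ≤ N) :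
    rS (SN A N) n = ((od A (n - 2)).card : ℝ) := by
  apply le_antisymm (rS_le_od A N n)
  rw [rS_card]
  have h1 : (od A (n - 2)).card ≤ (((SN A N) ×ˢ (SN A N)).filter (fun p => p.1 + p.2 = n)).card := by
    apply card_le_card_of_injOn (fun a => (a + 1, n - 2 - a + 1))
    · intro a ha
      unfold od at ha
      simp only [coe_filter, mem_range, Set.mem_setOf_eq] at ha
      simp only [coe_filter, mem_product, SN, mem_filter, mem_Icc, Set.mem_setOf_eq]
      refine ⟨⟨⟨⟨by omega, by omega⟩, ?_⟩, ⟨by omega, by omega⟩, ?_⟩, by omega⟩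
      · rw [Nat.add_sub_cancel]
        exact ha.2.1
      · rw [Nat.add_sub_cancel]
        exact ha.2.2
    · intro a _ b _ hab
      simp only [Prod.mk.injEq] at hab
      omega
  exact_mod_cast h1

theorem od_card_le (A : Set ℕ) (m : ℕ) : (od A m).card ≤ m + 1 := by
  classical
  unfold od
  refine (card_filter_le _ _).trans ?_
  rw [card_range]

/-- the improved second moment bound in terms of unordered representations -/
theorem un_bound (A : Set ℕ) (l K : ℕ) (hl : 1 ≤ l) (m0 : ℕ)
    (h1 : ∀ m, m0 ≤ m → l ≤ (un A m).card) (h2 : ∀ m, m0 ≤ m → (un A m).card ≤ K) :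
    16 * (l : ℝ) * K ≤ (2 * (l + K) - 1369 / 1260) ^ 2 := by
  classical
  have hlK : l ≤ K := (h1 m0 le_rfl).trans (h2 m0 le_rfl)
  have hlR : (1 : ℝ) ≤ l := by exact_mod_cast hl
  have hlKR : (l : ℝ) ≤ K := by exact_mod_cast hlK
  apply abstract_bound (2 * K + m0 + 1 : ℕ) (m0 + 2) (by omega) l K hlR hlKR (SN A)
  · intro N a ha
    unfold SN at ha
    rw [mem_filter, mem_Icc] at ha
    exact ha.1
  · intro N n
    refine (rS_le_od A N n).trans ?_
    have h3 : (od A (n - 2)).card ≤ 2 * K + m0 + 1 := by
      by_cases hc : m0 ≤ n - 2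
      · have h4 := h2 _ hc
        rcases od_eq A (n - 2) with h5 | h5 <;> omega
      · have := od_card_le A (n - 2)
        omega
    exact_mod_cast h3
  · intro N n hn hnN
    rw [rS_eq_od A N n (by omega) hnN]
    have h4 := h1 (n - 2) (by omega)
    have h3 : 1 ≤ (od A (n - 2)).card := by
      rcases od_eq A (n - 2) with h5 | h5 <;> omega
    exact_mod_cast h3
  · intro N n hn hnN
    rw [rS_eq_od A N n (by omega) hnN]
    have h4 : (l : ℝ) ≤ ((un A (n - 2)).card : ℝ) := by exact_mod_cast h1 (n - 2) (by omega)
    have h5 : ((un A (n - 2)).card : ℝ) ≤ K := by exact_mod_cast h2 (n - 2) (by omega)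
    rcases od_eq A (n - 2) with h6 | h6
    · rw [h6]
      push_cast
      have h7 : 0 ≤ (if 2 ∣ n ∧ n / 2 ∈ SN A N then 2 * (K : ℝ) - 2 * l + 1 else 0) := by
        split_ifs
        · linarith
        · exact le_rfl
      nlinarith [mul_nonneg (sub_nonneg.2 h4) (sub_nonneg.2 h5)]
    · have h7 : 2 ∣ n ∧ n / 2 ∈ SN A N := by
        obtain ⟨k, hk⟩ := h6.1
        refine ⟨⟨k + 1, by omega⟩, ?_⟩
        unfold SN
        rw [mem_filter, mem_Icc]
        refine ⟨by omega, ?_⟩
        have e1 : n / 2 - 1 = k := by omega
        have e2 : (n - 2) / 2 = k := by omega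
        rw [e1, ← e2]
        exact h6.2.1
      rw [if_pos h7]
      have h8 : ((od A (n - 2)).card : ℝ) = 2 * ((un A (n - 2)).card : ℝ) - 1 := by
        have : (((od A (n - 2)).card + 1 : ℕ) : ℝ) = ((2 * (un A (n - 2)).card : ℕ) : ℝ) := by
          rw [h6.2.2]
        push_cast at this
        linarith
      rw [h8]
      set u := (un A (n - 2)).card with hu
      rcases Nat.eq_or_lt_of_le (h1 (n - 2) (by omega)) with h9 | h9
      · have h10 : (u : ℝ) = l := by
          rw [hu, ← h9]
        rw [h10]
        nlinarith
      · have h10 : (l : ℝ) + 1 ≤ u := by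
          have : l + 1 ≤ u := h9
          exact_mod_cast this
        nlinarith [mul_nonneg (sub_nonneg.2 h10) (sub_nonneg.2 h5)]

/-- the multisets with two elements -/
theorem ncard_eq_un (A : Set ℕ) (m : ℕ) :
    Set.ncard {s : Multiset ℕ | Multiset.card s = 2 ∧ (∀ a ∈ s, a ∈ A) ∧ s.sum = m} = (un A m).card := by
  classical
  rw [← Set.ncard_coe_finset]
  symm
  apply Set.ncard_congr (fun a _ => ({a, m - a} : Multiset ℕ))
  · intro a ha
    unfold un at ha
    simp only [coe_filter, mem_range, Set.mem_setOf_eq] at ha
    refine ⟨by simp, ?_, ?_⟩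
    · intro b hb
      simp only [Multiset.insert_eq_cons, Multiset.mem_cons, Multiset.mem_singleton] at hb
      rcases hb with rfl | rfl
      · exact ha.2.2.1
      · exact ha.2.2.2
    · simp only [Multiset.insert_eq_cons, Multiset.sum_cons, Multiset.sum_singleton]
      omega
  · intro a b ha hb hab
    unfold un at ha hb
    simp only [coe_filter, mem_range, Set.mem_setOf_eq] at ha hb
    have h1 : a ∈ ({b, m - b} : Multiset ℕ) := by
      rw [← hab]
      simp
    simp only [Multiset.insert_eq_cons, Multiset.mem_cons, Multiset.mem_singleton] at h1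
    omega
  · intro s hs
    obtain ⟨hc, hA, hsum⟩ := hs
    rw [Multiset.card_eq_two] at hc
    obtain ⟨x, y, rfl⟩ := hc
    simp only [Multiset.insert_eq_cons, Multiset.sum_cons, Multiset.sum_singleton] at hsum
    have hx : x ∈ A := hA x (by simp)
    have hy : y ∈ A := hA y (by simp)
    rcases le_total x y with hxy | hxy
    · refine ⟨x, ?_, ?_⟩
      · unfold un
        simp only [coe_filter, mem_range, Set.mem_setOf_eq]
        have e : m - x = y := by omega
        refine ⟨by omega, by omega, hx, ?_⟩
        rw [e]
        exact hy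
      · have e : m - x = y := by omega
        rw [e]
    · refine ⟨y, ?_, ?_⟩
      · unfold un
        simp only [coe_filter, mem_range, Set.mem_setOf_eq]
        have e : m - y = x := by omega
        refine ⟨by omega, by omega, hy, ?_⟩
        rw [e]
        exact hx
      · have e : m - y = x := by omega
        rw [e]
        exact Multiset.pair_comm y x

end Pool.Agent.Helper80.ET
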