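import Pool.Agent.Helper80.ET.Sums

/-!
# The improved second moment bound: final assembly
-/

set_option autoImplicit false

namespace Pool.Agent.Helper80.ET

open Finset

/-- the constant of the final inequality -/
noncomputable def Cst (C0 : ℝ) (n0 : ℕ) (l K : ℝ) (h : ℕ) (θ η Rst : ℝ) : ℝ :=
  315 * ((C0 ^ 2 + 4 * l * K) * n0 + C0 ^ 2) + 315 * (2 * K - 2 * l + 1) / 2 * (1 / (2 * η)) +
    (315 * θ * C0 ^ 2 + 315 * (2 * K - 2 * l + 1) / 4 * η * C0) * (1 + 2 * h) +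
    370 * (25 / 32 * (2 * h * (C0 + |Rst|) ^ 2) +
      (3 * C0 * Real.exp 4 + 320 * n0 * C0 + 25 / 3 * (4 * h * C0 + 4 * |Rst|) ^ 2 +
        25 / 36 * (3 / 2 * C0 + |Rst|) ^ 2)) + 28328 * h * C0 ^ 2 + 630 * Rst * (3 * C0 * h)

theorem key (S : Finset ℕ) (N : ℕ) (hN : 1 ≤ N) (hS : ∀ a ∈ S, 1 ≤ a ∧ a ≤ N) (C0 : ℝ)
    (hr : ∀ n, rS S n ≤ C0) (n0 : ℕ) (hn0 : 1 ≤ n0) (l K : ℝ) (hl : 0 ≤ l) (hK : l ≤ K)
    (hlow : ∀ n, n0 ≤ n → n ≤ N → 1 ≤ rS S n)
    (hsq : ∀ n, n0 ≤ n → n ≤ N → rS S n ^ 2 ≤ 2 * (l + K) * rS S n - 4 * l * K +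
      (if 2 ∣ n ∧ n / 2 ∈ S then 2 * K - 2 * l + 1 else 0))
    (h : ℕ) (hh : 0 < h) (θ : ℝ) (hθ : 0 < θ) (η : ℝ) (hη : 0 < η) (c : ℝ)
    (hc : c = 1 - (1 + 1 / θ) / h) (hc0 : 0 ≤ c) (hc1 : c ≤ 1)
    (hα : 0 ≤ 630 * (l + K) - 1369 / 4 * c) :
    (1260 * l * K - (630 * (l + K) - 1369 / 4 * c) ^ 2 / 1260 - 315 * θ * C0 ^ 2 -
      315 * (2 * K - 2 * l + 1) / 4 * η * C0) * Ws h N ≤
      Cst C0 n0 l K h θ η ((630 * (l + K) - 1369 / 4 * c) / 630) := by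
  have hC0 : 0 ≤ C0 := (rS_nonneg S 0).trans (hr 0)
  have hK0 : 0 ≤ K := hl.trans hK
  have hhR : (0 : ℝ) < h := by exact_mod_cast hh
  set α := 630 * (l + K) - 1369 / 4 * c with hαd
  set Rst := α / 630 with hRst
  set R2 := ∑ s ∈ Icc 1 N, Rw S h s ^ 2 * (1 / ((s : ℝ) + h)) with hR2
  set R1 := ∑ s ∈ Icc 1 N, Rw S h s * (1 / ((s : ℝ) + h)) with hR1
  set Q := ∑ s ∈ Icc 1 N, (Rw S h s - Rst) ^ 2 * (1 / ((s : ℝ) + h)) with hQ
  have hQ0 : 0 ≤ Q := sum_nonneg fun s _ => mul_nonneg (sq_nonneg _) (by positivity)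
  have hQe : Q = R2 - 2 * Rst * R1 + Rst ^ 2 * Ws h N := by
    rw [hQ, hR2, hR1]
    unfold Ws
    rw [mul_sum, mul_sum, ← sum_sub_distrib, ← sum_add_distrib]
    apply sum_congr rfl
    intro s _
    ring
  have m1 := master1 S N hS C0 hr h hh θ hθ
  rw [← hc] at m1
  have m1' : ∑ s ∈ Icc 1 N, ((∑ j ∈ range h, rS S (s + j)) / h) ^ 2 / ((s : ℝ) + h) = R2 := by
    rw [hR2]
    apply sum_congr rfl
    intro s _
    unfold Rw
    ring
  rw [m1'] at m1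
  have m2 := T2_le S N hN hS C0 hr n0 l K hl hK hsq
  have m3 := T2_crude S N C0 hr
  set T2 := ∑ n ∈ range (2 * N + 1), rS S n ^ 2 / (n : ℝ) with hT2
  have m4 := I0_ge S (fun a ha => (hS a ha).1)
  have m5 := pair_sum_ge S N hS
  have m6 := T1_le S N C0 hr h hh
  rw [← hR1] at m6
  have m7 := Hs_two N hN
  have m8 := Hs_le h N
  have m9 := Ws_le h N
  have m10 := Xs_sq S N hS C0 hr
  have m11 := rho_sum_le S N C0 hr h hh Rst
  rw [← hQ] at m11
  have m12 := G1_le S N hN hS C0 hr n0 hn0 hlow h hh Rst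
  set P := ∑ a ∈ S, ∑ b ∈ S, 1 / ((a : ℝ) + b) with hP
  set Q' := ∑ s ∈ Icc 1 N, (Rw S h s - Rst) ^ 2 / (s : ℝ) with hQ'
  set C3 := (3 * C0 * Real.exp 4 + 320 * n0 * C0 + 25 / 3 * (4 * h * C0 + 4 * |Rst|) ^ 2 +
        25 / 36 * (3 / 2 * C0 + |Rst|) ^ 2) with hC3
  set C4 := 2 * h * (C0 + |Rst|) ^ 2 with hC4
  have hC3n : 0 ≤ C3 := by
    have := abs_nonneg Rst
    rw [hC3]
    positivity
  have hC4n : 0 ≤ C4 := by
    rw [hC4]
    positivity
  set W := Ws h N with hW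
  have hWn : 0 ≤ W := by
    rw [hW]
    unfold Ws
    exact sum_nonneg fun s _ => by positivity
  -- (a) the harmonic sums
  have b1 : Hs (2 * N) ≤ W + (1 + 2 * h) := by linarith
  -- (b) the reciprocal sum
  have b2 : Xs S ≤ η / 2 * (C0 * (W + (1 + 2 * h))) + 1 / (2 * η) := by
    have h1 : Xs S ≤ η / 2 * Xs S ^ 2 + 1 / (2 * η) := by
      have h2 : 0 ≤ (η * Xs S - 1) ^ 2 / (2 * η) := by positivity
      have h3 : (η * Xs S - 1) ^ 2 / (2 * η) = η / 2 * Xs S ^ 2 + 1 / (2 * η) - Xs S := by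
        field_simp
        ring
      linarith
    have h2 : Xs S ^ 2 ≤ C0 * (W + (1 + 2 * h)) :=
      m10.trans (mul_le_mul_of_nonneg_left b1 hC0)
    have h3 : η / 2 * Xs S ^ 2 ≤ η / 2 * (C0 * (W + (1 + 2 * h))) :=
      mul_le_mul_of_nonneg_left h2 (by positivity)
    linarith
  -- (c) `θ T2`
  have b3 : θ * (315 * T2) ≤ 315 * θ * C0 ^ 2 * (W + (1 + 2 * h)) := by
    have h1 : T2 ≤ C0 ^ 2 * (W + (1 + 2 * h)) :=
      m3.trans (mul_le_mul_of_nonneg_left b1 (by positivity))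
    have h2 : 0 ≤ θ * 315 := by positivity
    have h3 := mul_le_mul_of_nonneg_left h1 h2
    linarith
  -- (d) `c I0`
  have b4 : 1369 / 4 * c * T1 S N - 370 * (25 / 32 * (Q + C4) + C3) ≤ c * I0 S := by
    have h1 : 1369 / 4 * T1 S N - 370 * G1 S ≤ I0 S := by linarith
    have h2 := mul_le_mul_of_nonneg_left h1 hc0
    have h3 : G1 S ≤ 25 / 32 * (Q + C4) + C3 := by linarith
    have h4 : c * G1 S ≤ c * (25 / 32 * (Q + C4) + C3) := mul_le_mul_of_nonneg_left h3 hc0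
    have h5 : c * (25 / 32 * (Q + C4) + C3) ≤ 1 * (25 / 32 * (Q + C4) + C3) :=
      mul_le_mul_of_nonneg_right hc1 (by positivity)
    have h6 : c * (1369 / 4 * T1 S N - 370 * G1 S) = 1369 / 4 * c * T1 S N - 370 * (c * G1 S) := by ring
    linarith
  -- (e) `α T1`
  have b5 : α * T1 S N ≤ α * R1 + α * (3 * C0 * h) := by
    have := mul_le_mul_of_nonneg_left m6 hα
    linarith
  have b6 : 315 * (2 * K - 2 * l + 1) / 2 * Xs S ≤
      315 * (2 * K - 2 * l + 1) / 2 * (η / 2 * (C0 * (W + (1 + 2 * h))) + 1 / (2 * η)) :=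
    mul_le_mul_of_nonneg_left b2 (by linarith)
  have b7 : 1260 * l * K * W ≤ 1260 * l * K * Hs N := mul_le_mul_of_nonneg_left m9 (by positivity)
  have b8 : 315 * Q = 315 * R2 - α * R1 + α ^ 2 / 1260 * W := by
    rw [hQe, hRst]
    ring
  have b9 : 315 * (2 * (l + K) * T1 S N) = (α + 1369 / 4 * c) * T1 S N := by
    rw [hαd]
    ring
  have e1 : 630 * Rst * (3 * C0 * h) = α * (3 * C0 * h) := by
    rw [hRst]
    ring
  unfold Cst
  rw [e1]
  linarith [m1, m2, b3, b4, b5, b6, b7, b8, b9, hQ0]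

theorem Ws_unbounded (h : ℕ) (B : ℝ) : ∃ N0 : ℕ, ∀ N, N0 ≤ N → B ≤ Ws h N := by
  have h1 : ∀ N, Hs N ≤ Ws h N + 2 * h := Hs_le h
  have h2 : Filter.Tendsto (fun n : ℕ => ∑ i ∈ range n, (1 / ((i : ℝ) + 1))) Filter.atTop Filter.atTop :=
    Real.tendsto_sum_range_one_div_nat_succ_atTop
  rw [Filter.tendsto_atTop] at h2
  have h3 := h2 (B + 2 * h)
  rw [Filter.eventually_atTop] at h3
  obtain ⟨N0, hN0⟩ := h3
  refine ⟨N0, fun N hN => ?_⟩
  have h4 := hN0 N hN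
  have h5 : ∑ i ∈ range N, (1 / ((i : ℝ) + 1)) = Hs N := by
    unfold Hs
    have h6 : Icc 1 N = Ico 1 (N + 1) := by
      ext n
      simp only [mem_Icc, mem_Ico]
      omega
    rw [h6, Finset.sum_Ico_eq_sum_range]
    apply sum_congr
    · congr 1
    · intro i _
      push_cast
      rw [add_comm]
  rw [h5] at h4
  have := h1 N
  linarith

/-- the abstract form of the improved second moment bound -/
theorem abstract_bound (C0 : ℝ) (n0 : ℕ) (hn0 : 1 ≤ n0) (l K : ℝ) (hl : 1 ≤ l) (hK : l ≤ K)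
    (S : ℕ → Finset ℕ) (hS : ∀ N, ∀ a ∈ S N, 1 ≤ a ∧ a ≤ N) (hr : ∀ N n, rS (S N) n ≤ C0)
    (hlow : ∀ N n, n0 ≤ n → n ≤ N → 1 ≤ rS (S N) n)
    (hsq : ∀ N n, n0 ≤ n → n ≤ N → rS (S N) n ^ 2 ≤ 2 * (l + K) * rS (S N) n - 4 * l * K +
      (if 2 ∣ n ∧ n / 2 ∈ S N then 2 * K - 2 * l + 1 else 0)) :
    16 * l * K ≤ (2 * (l + K) - 1369 / 1260) ^ 2 := by
  by_contra hcon
  rw [not_le] at hcon
  have hC0 : 0 ≤ C0 := (rS_nonneg (S 0) 0).trans (hr 0 0)
  have hC1 : 1 ≤ C0 := (hlow n0 n0 le_rfl le_rfl).trans (hr n0 n0)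
  have hlK : 0 ≤ K - l := by linarith
  set α1 := 630 * (l + K) - 1369 / 4 with hα1
  have hα1p : 0 < α1 := by
    rw [hα1]
    linarith
  set D1 := 1260 * l * K - α1 ^ 2 / 1260 with hD1
  have hD1p : 0 < D1 := by
    have e : D1 = 315 ^ 2 / 1260 * (16 * l * K - (2 * (l + K) - 1369 / 1260) ^ 2) := by
      rw [hD1, hα1]
      ring
    rw [e]
    apply mul_pos (by norm_num)
    linarith
  set M := (2 * α1 * (1369 / 4) + (1369 / 4) ^ 2) / 1260 with hM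
  have hMp : 0 < M := by positivity
  set θ := D1 / (4 * 315 * C0 ^ 2) with hθ
  have hθp : 0 < θ := by
    rw [hθ]
    apply div_pos hD1p
    positivity
  set η := D1 / (315 * (2 * K - 2 * l + 1) * C0) with hη
  have hηp : 0 < η := by
    rw [hη]
    apply div_pos hD1p
    have : 0 < 2 * K - 2 * l + 1 := by linarith
    positivity
  obtain ⟨h, hh⟩ := exists_nat_gt ((1 + 1 / θ) * (1 + 4 * M / D1))
  have hhR : (0 : ℝ) < h := by
    refine lt_trans ?_ hh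
    positivity
  have hhN : 0 < h := by exact_mod_cast hhR
  set ε := (1 + 1 / θ) / h with hε
  have hεp : 0 < ε := by positivity
  have hε1 : ε * (1 + 4 * M / D1) < 1 := by
    rw [hε, div_mul_eq_mul_div, div_lt_one hhR]
    exact hh
  have hε2 : ε < 1 := by
    have : 0 < 4 * M / D1 := by positivity
    nlinarith
  have hε3 : ε * M < D1 / 4 := by
    have h1 : ε * (4 * M / D1) < 1 := by nlinarith
    have h2 : ε * (4 * M / D1) = (4 * (ε * M)) / D1 := by ring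
    rw [h2, div_lt_one hD1p] at h1
    linarith
  set c := 1 - ε with hc
  have hc0 : 0 ≤ c := by linarith
  have hc1 : c ≤ 1 := by linarith
  set α := 630 * (l + K) - 1369 / 4 * c with hα
  have hαp : 0 ≤ α := by
    rw [hα]
    linarith
  have hD : D1 / 4 < 1260 * l * K - α ^ 2 / 1260 - 315 * θ * C0 ^ 2 -
      315 * (2 * K - 2 * l + 1) / 4 * η * C0 := by
    have h1 : 315 * θ * C0 ^ 2 = D1 / 4 := by
      rw [hθ]
      field_simp
    have h2 : 315 * (2 * K - 2 * l + 1) / 4 * η * C0 = D1 / 4 := by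
      rw [hη]
      have : (2 * K - 2 * l + 1) ≠ 0 := by
        have : 0 < 2 * K - 2 * l + 1 := by linarith
        exact this.ne'
      field_simp
    have h3 : α = α1 + 1369 / 4 * ε := by
      rw [hα, hα1, hc]
      ring
    have h4 : α ^ 2 / 1260 ≤ α1 ^ 2 / 1260 + ε * M := by
      rw [h3, hM]
      have h5 : ε ^ 2 ≤ ε := by nlinarith
      nlinarith
    rw [h1, h2]
    have h5 : 1260 * l * K = D1 + α1 ^ 2 / 1260 := by
      rw [hD1]
      ring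
    linarith
  obtain ⟨N0, hN0⟩ := Ws_unbounded h ((Cst C0 n0 l K h θ η (α / 630) + 1) / (D1 / 4))
  set N := max N0 1 with hN
  have hNW := hN0 N (le_max_left _ _)
  have hk := key (S N) N (le_max_right _ _) (hS N) C0 (hr N) n0 hn0 l K (by linarith) hK (hlow N)
    (hsq N) h hhN θ hθp η hηp c (by rw [hc, hε]) hc0 hc1 hαp
  rw [← hα] at hk
  rw [div_le_iff₀ (by positivity)] at hNW
  have hWp : 0 ≤ Ws h N := by
    unfold Ws
    exact sum_nonneg fun s _ => by positivity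
  have h1 : Ws h N * (D1 / 4) ≤ (1260 * l * K - α ^ 2 / 1260 - 315 * θ * C0 ^ 2 -
      315 * (2 * K - 2 * l + 1) / 4 * η * C0) * Ws h N := by
    rw [mul_comm]
    exact mul_le_mul_of_nonneg_right hD.le hWp
  linarith

end Pool.Agent.Helper80.ET
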