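import Pool.Agent.Helper80.ET.Approx

/-!
# The upper bound for `G1`
-/

set_option autoImplicit false

namespace Pool.Agent.Helper80.ET

open Finset MeasureTheory

theorem intExp_integrable (M : ℝ) (hM : 0 < M) :
    IntegrableOn (fun x : ℝ => Real.exp (-(M * x))) (Set.Ioi 0) := by
  refine (integrable_mono 0 M hM).congr_fun (fun x _ => ?_) measurableSet_Ioi
  simp

theorem intExp (M : ℝ) (hM : 0 < M) : ∫ x in Set.Ioi (0 : ℝ), Real.exp (-(M * x)) = 1 / M := by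
  have h1 := integral_mono 0 M hM
  simp only [pow_zero, one_mul, Nat.factorial_zero, Nat.cast_one, zero_add, pow_one] at h1
  exact h1

theorem sum_rS (S : Finset ℕ) (N : ℕ) (hS : ∀ a ∈ S, 1 ≤ a ∧ a ≤ N) (F : ℕ → ℝ) :
    ∑ a ∈ S, ∑ b ∈ S, F (a + b) = ∑ n ∈ range (2 * N + 1), rS S n * F n := by
  apply rS_group
  intro a ha b hb
  have := (hS a ha).2
  have := (hS b hb).2
  omega

/-- the function whose square is integrated in `G1` -/
noncomputable def fS (S : Finset ℕ) (x : ℝ) : ℝ := ∑ a ∈ S, (1 / 2 - a * x) * Real.exp (-(a * x))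

theorem fS_one (S : Finset ℕ) (N : ℕ) (hN : 1 ≤ N) (hS : ∀ a ∈ S, 1 ≤ a ∧ a ≤ N) (C0 : ℝ)
    (hr : ∀ n, rS S n ≤ C0) (x : ℝ) (hx : 0 < x) (hx4 : x * N ≤ 4) :
    fS S x ^ 2 ≤ 3 * N * C0 * Real.exp 4 * Real.exp (-(N * x)) := by
  have hC0 : 0 ≤ C0 := (rS_nonneg S 0).trans (hr 0)
  have h1 : |fS S x| ≤ ∑ a ∈ S, (1 : ℝ) := by
    unfold fS
    refine (abs_sum_le_sum_abs _ _).trans (sum_le_sum fun a _ => ?_)
    exact half_sub_le (a * x) (by positivity)
  have h2 : fS S x ^ 2 ≤ (∑ a ∈ S, (1 : ℝ)) ^ 2 := by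
    rw [← sq_abs]
    exact pow_le_pow_left₀ (abs_nonneg _) h1 2
  have h3 : (∑ a ∈ S, (1 : ℝ)) ^ 2 = ∑ n ∈ range (2 * N + 1), rS S n * 1 := by
    rw [← sum_rS S N hS (fun _ => (1 : ℝ)), pow_two, sum_mul_sum]
    simp
  have h4 : ∑ n ∈ range (2 * N + 1), rS S n * 1 ≤ 3 * N * C0 := by
    have h5 : ∀ n ∈ range (2 * N + 1), rS S n * 1 ≤ C0 := fun n _ => by
      rw [mul_one]
      exact hr n
    refine (sum_le_sum h5).trans ?_
    rw [sum_const, card_range, nsmul_eq_mul]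
    apply mul_le_mul_of_nonneg_right _ hC0
    have : (1 : ℝ) ≤ N := by exact_mod_cast hN
    push_cast
    linarith
  have h5 : 1 ≤ Real.exp 4 * Real.exp (-(N * x)) := by
    rw [← Real.exp_add]
    apply Real.one_le_exp
    linarith [mul_comm x (N : ℝ)]
  have h6 : 0 ≤ 3 * (N : ℝ) * C0 := by positivity
  rw [mul_assoc]
  calc fS S x ^ 2 ≤ 3 * N * C0 := by linarith
    _ = 3 * N * C0 * 1 := by ring
    _ ≤ _ := mul_le_mul_of_nonneg_left h5 h6

theorem fS_three (S : Finset ℕ) (N : ℕ) (hS : ∀ a ∈ S, 1 ≤ a ∧ a ≤ N) (C0 : ℝ)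
    (hr : ∀ n, rS S n ≤ C0) (n0 : ℕ) (hn0 : 1 ≤ n0) (x : ℝ) (hx : 1 / (40 * n0) ≤ x) :
    fS S x ^ 2 ≤ 160 * n0 * C0 * Real.exp (-(1 / 2 * x)) := by
  have hC0 : 0 ≤ C0 := (rS_nonneg S 0).trans (hr 0)
  have hn0R : (1 : ℝ) ≤ n0 := by exact_mod_cast hn0
  have hδ : (0 : ℝ) < 1 / (40 * n0) := by positivity
  have hx0 : 0 < x := lt_of_lt_of_le hδ hx
  have h1 : |fS S x| ≤ ∑ a ∈ S, Real.exp (-(a * x / 2)) := by
    unfold fS
    refine (abs_sum_le_sum_abs _ _).trans (sum_le_sum fun a _ => ?_)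
    exact half_sub_le' (a * x) (by positivity)
  have h2 : fS S x ^ 2 ≤ (∑ a ∈ S, Real.exp (-(a * x / 2))) ^ 2 := by
    rw [← sq_abs]
    exact pow_le_pow_left₀ (abs_nonneg _) h1 2
  have h3 : (∑ a ∈ S, Real.exp (-((a : ℝ) * x / 2))) ^ 2 =
      ∑ n ∈ range (2 * N + 1), rS S n * Real.exp (-((n : ℝ) * x / 2)) := by
    rw [← sum_rS S N hS (fun n => Real.exp (-((n : ℝ) * x / 2))), pow_two, sum_mul_sum]
    apply sum_congr rfl
    intro a _
    apply sum_congr rfl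
    intro b _
    rw [← Real.exp_add]
    push_cast
    ring_nf
  have h4 : ∑ n ∈ range (2 * N + 1), rS S n * Real.exp (-((n : ℝ) * x / 2)) =
      ∑ n ∈ Ico (0 + 1) (2 * N + 1), rS S n * Real.exp (-((n : ℝ) * x / 2)) := by
    rw [range_eq_Ico, sum_eq_sum_Ico_succ_bot (by omega), rS_zero_zero S N hS, zero_mul, zero_add]
  have h5 : ∀ n ∈ Ico (0 + 1) (2 * N + 1), rS S n * Real.exp (-((n : ℝ) * x / 2)) ≤
      C0 * Real.exp (-(1 / 2 * x)) * Real.exp (-(1 / (40 * n0) / 4 * n)) := by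
    intro n hn
    rw [mem_Ico] at hn
    by_cases h1n : n = 1
    · have : rS S n = 0 := by
        unfold rS
        apply sum_eq_zero
        intro a ha
        apply sum_eq_zero
        intro b hb
        rw [if_neg]
        have := (hS a ha).1
        have := (hS b hb).1
        omega
      rw [this, zero_mul]
      positivity
    · have hn2 : (2 : ℝ) ≤ n := by exact_mod_cast (by omega : 2 ≤ n)
      rw [mul_assoc]
      apply mul_le_mul (hr n) _ (Real.exp_pos _).le hC0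
      rw [← Real.exp_add]
      apply Real.exp_le_exp.2
      have h6 : 1 / (40 * (n0 : ℝ)) * n ≤ x * n := mul_le_mul_of_nonneg_right hx (by linarith)
      nlinarith
  have h6 := geo (1 / (40 * n0) / 4) (by positivity) 0 (2 * N + 1)
  rw [Nat.cast_zero, mul_zero, neg_zero, Real.exp_zero] at h6
  calc fS S x ^ 2 ≤ ∑ n ∈ Ico (0 + 1) (2 * N + 1), rS S n * Real.exp (-((n : ℝ) * x / 2)) := by
        rw [← h4, ← h3]
        exact h2
    _ ≤ ∑ n ∈ Ico (0 + 1) (2 * N + 1), C0 * Real.exp (-(1 / 2 * x)) * Real.exp (-(1 / (40 * n0) / 4 * n)) :=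
        sum_le_sum h5
    _ = C0 * Real.exp (-(1 / 2 * x)) * ∑ n ∈ Ico (0 + 1) (2 * N + 1), Real.exp (-(1 / (40 * n0) / 4 * n)) := by
        rw [mul_sum]
    _ ≤ C0 * Real.exp (-(1 / 2 * x)) * (1 / (1 / (40 * n0) / 4)) :=
        mul_le_mul_of_nonneg_left h6 (by positivity)
    _ = _ := by
        field_simp
        ring

theorem fS_two (S : Finset ℕ) (N : ℕ) (hN : 1 ≤ N) (hS : ∀ a ∈ S, 1 ≤ a ∧ a ≤ N) (C0 : ℝ)
    (hr : ∀ n, rS S n ≤ C0) (n0 : ℕ) (hn0 : 1 ≤ n0) (hlow : ∀ n, n0 ≤ n → n ≤ N → 1 ≤ rS S n)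
    (h : ℕ) (hh : 0 < h) (Rst x : ℝ) (hx : x ≤ 1 / (40 * n0)) (hx4 : 4 < x * N) :
    fS S x ^ 2 ≤ 25 / 48 * ∑ s ∈ Icc 1 N, (Rw S h s - Rst) ^ 2 * Real.exp (-(2 / 3 * s * x)) +
      25 / 3 * (4 * h * C0 + 4 * |Rst|) ^ 2 * Real.exp (-(1 * x)) +
      25 / 36 * (3 / 2 * C0 + |Rst|) ^ 2 * N * Real.exp (-(N * x)) := by
  have hC0 : 0 ≤ C0 := (rS_nonneg S 0).trans (hr 0)
  have hn0R : (1 : ℝ) ≤ n0 := by exact_mod_cast hn0
  have hNR : (1 : ℝ) ≤ N := by exact_mod_cast hN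
  have hx0 : 0 < x := by
    by_contra hc
    rw [not_lt] at hc
    have : x * N ≤ 0 := mul_nonpos_of_nonpos_of_nonneg hc (by linarith)
    linarith
  have hx1 : x ≤ 1 := by
    refine hx.trans ?_
    rw [div_le_one (by positivity)]
    linarith
  have hxn0 : x * n0 ≤ 1 / 40 := by
    have := mul_le_mul_of_nonneg_right hx (by linarith : (0 : ℝ) ≤ n0)
    have e : 1 / (40 * (n0 : ℝ)) * n0 = 1 / 40 := by field_simp
    linarith
  have hn0N : n0 ≤ N := by
    by_contra hc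
    rw [not_le] at hc
    have h1 : (N : ℝ) ≤ n0 := by exact_mod_cast hc.le
    have := mul_le_mul_of_nonneg_left h1 hx0.le
    linarith
  -- lower bound for `B`
  set A0 : ℝ := ∑ a ∈ S, Real.exp (-(a * x)) with hA0
  set A1 : ℝ := ∑ a ∈ S, (a : ℝ) * Real.exp (-(a * x)) with hA1
  have hB : A0 ^ 2 = ∑ n ∈ range (2 * N + 1), rS S n * Real.exp (-((n : ℝ) * x)) := by
    rw [← sum_rS S N hS (fun n => Real.exp (-((n : ℝ) * x))), pow_two, hA0, sum_mul_sum]
    apply sum_congr rfl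
    intro a _
    apply sum_congr rfl
    intro b _
    rw [← Real.exp_add]
    push_cast
    ring_nf
  have hB1 : 2 * A0 * A1 = ∑ n ∈ range (2 * N + 1), rS S n * (n * Real.exp (-((n : ℝ) * x))) := by
    rw [← sum_rS S N hS (fun n => (n : ℝ) * Real.exp (-((n : ℝ) * x)))]
    have e1 : 2 * A0 * A1 = A0 * A1 + A1 * A0 := by ring
    rw [e1, hA0, hA1, sum_mul_sum, sum_mul_sum, ← sum_add_distrib]
    apply sum_congr rfl
    intro a _
    rw [← sum_add_distrib]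
    apply sum_congr rfl
    intro b _
    have e2 : Real.exp (-(((a + b : ℕ) : ℝ) * x)) = Real.exp (-(a * x)) * Real.exp (-(b * x)) := by
      rw [← Real.exp_add]
      push_cast
      ring_nf
    rw [e2]
    push_cast
    ring
  have hfS : fS S x = A0 / 2 - x * A1 := by
    unfold fS
    rw [hA0, hA1, sum_div, mul_sum, ← sum_sub_distrib]
    apply sum_congr rfl
    intro a _
    ring
  set Z := ∑ n ∈ range (2 * N + 1), rS S n * phi x n with hZ
  have hZ2 : Z = A0 ^ 2 - x * (2 * A0 * A1) := by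
    rw [hB, hB1, mul_sum, ← sum_sub_distrib, hZ]
    apply sum_congr rfl
    intro n _
    unfold phi
    rw [mul_comm x (n : ℝ)]
    ring
  have hBlow : 9 / 10 / x ≤ A0 ^ 2 := by
    rw [hB]
    have h1 : ∑ n ∈ Ico n0 (n0 + (N + 1 - n0)), Real.exp (-(x * n)) ≤
        ∑ n ∈ range (2 * N + 1), rS S n * Real.exp (-((n : ℝ) * x)) := by
      have h2 : ∀ n ∈ Ico n0 (n0 + (N + 1 - n0)), Real.exp (-(x * n)) ≤ rS S n * Real.exp (-((n : ℝ) * x)) := by
        intro n hn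
        rw [mem_Ico] at hn
        have h3 := hlow n hn.1 (by omega)
        rw [mul_comm x]
        have := Real.exp_pos (-((n : ℝ) * x))
        nlinarith
      refine (sum_le_sum h2).trans ?_
      apply sum_le_sum_of_subset_of_nonneg
      · intro n hn
        rw [mem_Ico] at hn
        rw [mem_range]
        omega
      · intro n _ _
        exact mul_nonneg (rS_nonneg _ _) (Real.exp_pos _).le
    refine le_trans ?_ h1
    refine le_trans ?_ (geo_low x hx0 n0 (N + 1 - n0))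
    apply div_le_div_of_nonneg_right _ hx0.le
    have h3 : Real.exp (-(x * n0)) ≥ 1 - 1 / 40 := by
      have := Real.add_one_le_exp (-(x * n0))
      linarith
    have h4 : Real.exp (-(x * ((n0 + (N + 1 - n0) : ℕ) : ℝ))) ≤ 1 / 50 := by
      have e1 : n0 + (N + 1 - n0) = N + 1 := by omega
      rw [e1]
      have h5 : Real.exp (-(x * ((N + 1 : ℕ) : ℝ))) ≤ Real.exp (-4) := by
        apply Real.exp_le_exp.2
        push_cast
        nlinarith
      refine h5.trans ?_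
      rw [Real.exp_neg, inv_eq_one_div, one_div_le_one_div (Real.exp_pos _) (by norm_num)]
      have h6 : (2.7 : ℝ) ≤ Real.exp 1 := by
        have := Real.exp_one_gt_d9
        linarith
      have h7 : Real.exp 4 = Real.exp 1 ^ 4 := by
        rw [← Real.exp_nat_mul]
        norm_num
      rw [h7]
      calc (50 : ℝ) ≤ 2.7 ^ 4 := by norm_num
        _ ≤ Real.exp 1 ^ 4 := pow_le_pow_left₀ (by norm_num) h6 4
    linarith
  have hf1 : fS S x ^ 2 ≤ 5 / 18 * x * Z ^ 2 := by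
    have h1 : fS S x ^ 2 * A0 ^ 2 = 1 / 4 * Z ^ 2 := by
      rw [hfS, hZ2]
      ring
    have h2 : fS S x ^ 2 * (9 / 10 / x) ≤ 1 / 4 * Z ^ 2 := by
      rw [← h1]
      exact mul_le_mul_of_nonneg_left hBlow (sq_nonneg _)
    have h3 : fS S x ^ 2 * (9 / 10 / x) = fS S x ^ 2 * (9 / 10) / x := by ring
    rw [h3, div_le_iff₀ hx0] at h2
    linarith
  -- the approximation
  set X := ∑ s ∈ Icc 1 N, (Rw S h s - Rst) * phi x s with hX
  set C1 := 4 * h * C0 + 4 * |Rst| with hC1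
  set C2 := 3 / 2 * C0 + |Rst| with hC2
  have hC1n : 0 ≤ C1 := by
    have := abs_nonneg Rst
    rw [hC1]
    positivity
  have hC2n : 0 ≤ C2 := by
    have := abs_nonneg Rst
    rw [hC2]
    positivity
  have hap := approx S N hS C0 hr h hh Rst x hx0 hx1
  rw [← hZ, ← hX, ← hC1, ← hC2] at hap
  set E := C1 + C2 / x * Real.exp (-(x * N / 2)) with hE
  have hZsq : Z ^ 2 ≤ 5 / 4 * X ^ 2 + 5 * E ^ 2 := by
    have h1 : (Z - X) ^ 2 ≤ E ^ 2 := by
      rw [← sq_abs]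
      exact pow_le_pow_left₀ (abs_nonneg _) hap 2
    nlinarith [sq_nonneg (X / 2 - 2 * (Z - X))]
  have hEsq : E ^ 2 ≤ 2 * C1 ^ 2 + 2 * (C2 ^ 2 / x ^ 2 * Real.exp (-(N * x))) := by
    have h1 : (C2 / x * Real.exp (-(x * N / 2))) ^ 2 = C2 ^ 2 / x ^ 2 * Real.exp (-(N * x)) := by
      rw [mul_pow, div_pow, ← Real.exp_nat_mul]
      push_cast
      ring_nf
    rw [← h1, hE]
    nlinarith [sq_nonneg (C1 - C2 / x * Real.exp (-(x * N / 2)))]
  set W := ∑ s ∈ Icc 1 N, (Rw S h s - Rst) ^ 2 * Real.exp (-(2 / 3 * s * x)) with hW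
  have hW0 : 0 ≤ W := sum_nonneg fun s _ => mul_nonneg (sq_nonneg _) (Real.exp_pos _).le
  have hXsq : X ^ 2 ≤ 3 / 2 / x * W := by
    have h1 : |X| ≤ ∑ s ∈ Icc 1 N, |Rw S h s - Rst| * Real.exp (-(2 / 3 * s * x)) := by
      refine (abs_sum_le_sum_abs _ _).trans (sum_le_sum fun s _ => ?_)
      rw [abs_mul]
      apply mul_le_mul_of_nonneg_left _ (abs_nonneg _)
      have := phi_abs x s hx0.le (Nat.cast_nonneg _)
      have e : 2 / 3 * x * (s : ℝ) = 2 / 3 * s * x := by ring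
      rw [e] at this
      exact this
    have h2 : X ^ 2 ≤ (∑ s ∈ Icc 1 N, |Rw S h s - Rst| * Real.exp (-(2 / 3 * s * x))) ^ 2 := by
      rw [← sq_abs]
      exact pow_le_pow_left₀ (abs_nonneg _) h1 2
    have h3 : (∑ s ∈ Icc 1 N, |Rw S h s - Rst| * Real.exp (-(2 / 3 * s * x))) ^ 2 ≤
        (∑ s ∈ Icc 1 N, Real.exp (-(2 / 3 * s * x))) * W := by
      apply sum_sq_le_sum_mul_sum_of_sq_le_mul
      · intro s _
        exact (Real.exp_pos _).le
      · intro s _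
        exact mul_nonneg (sq_nonneg _) (Real.exp_pos _).le
      · intro s _
        apply le_of_eq
        rw [mul_pow, sq_abs]
        ring
    have h4 : ∑ s ∈ Icc 1 N, Real.exp (-(2 / 3 * s * x)) ≤ 3 / 2 / x := by
      have hI : Icc 1 N = Ico (0 + 1) (N + 1) := by
        ext n
        simp only [mem_Icc, mem_Ico]
        omega
      have h5 := geo (2 / 3 * x) (by positivity) 0 (N + 1)
      rw [Nat.cast_zero, mul_zero, neg_zero, Real.exp_zero] at h5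
      rw [hI]
      refine le_trans (le_of_eq ?_) (h5.trans (le_of_eq ?_))
      · apply sum_congr rfl
        intro s _
        ring_nf
      · field_simp
    exact h2.trans (h3.trans (mul_le_mul_of_nonneg_right h4 hW0))
  have h1 : 5 / 18 * x * Z ^ 2 ≤ 5 / 18 * x * (5 / 4 * (3 / 2 / x * W) +
      5 * (2 * C1 ^ 2 + 2 * (C2 ^ 2 / x ^ 2 * Real.exp (-(N * x))))) := by
    apply mul_le_mul_of_nonneg_left _ (by positivity)
    linarith
  have h2 : 5 / 18 * x * (5 / 4 * (3 / 2 / x * W) +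
      5 * (2 * C1 ^ 2 + 2 * (C2 ^ 2 / x ^ 2 * Real.exp (-(N * x))))) =
      25 / 48 * W + 25 / 9 * C1 ^ 2 * x + 25 / 9 * C2 ^ 2 * (1 / x) * Real.exp (-(N * x)) := by
    field_simp
    ring
  have h3 : 25 / 9 * C1 ^ 2 * x ≤ 25 / 3 * C1 ^ 2 * Real.exp (-(1 * x)) := by
    have h4 : x ≤ 3 * Real.exp (-(1 * x)) := by
      have h5 : Real.exp (-1) ≤ Real.exp (-(1 * x)) := Real.exp_le_exp.2 (by linarith)
      have h6 : (1 : ℝ) / 3 ≤ Real.exp (-1) := by
        rw [Real.exp_neg, inv_eq_one_div, one_div_le_one_div (by norm_num) (Real.exp_pos _)]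
        have := Real.exp_one_lt_d9
        linarith
      linarith
    have h5 : 0 ≤ 25 / 9 * C1 ^ 2 := by positivity
    calc 25 / 9 * C1 ^ 2 * x ≤ 25 / 9 * C1 ^ 2 * (3 * Real.exp (-(1 * x))) :=
          mul_le_mul_of_nonneg_left h4 h5
      _ = _ := by ring
  have h4 : 25 / 9 * C2 ^ 2 * (1 / x) * Real.exp (-(N * x)) ≤ 25 / 36 * C2 ^ 2 * N * Real.exp (-(N * x)) := by
    apply mul_le_mul_of_nonneg_right _ (Real.exp_pos _).le
    have h5 : 1 / x ≤ N / 4 := by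
      rw [div_le_div_iff₀ hx0 (by norm_num)]
      linarith [mul_comm x (N : ℝ)]
    have h6 : 0 ≤ 25 / 9 * C2 ^ 2 := by positivity
    calc 25 / 9 * C2 ^ 2 * (1 / x) ≤ 25 / 9 * C2 ^ 2 * (N / 4) := mul_le_mul_of_nonneg_left h5 h6
      _ = _ := by ring
  linarith

theorem G1_le (S : Finset ℕ) (N : ℕ) (hN : 1 ≤ N) (hS : ∀ a ∈ S, 1 ≤ a ∧ a ≤ N) (C0 : ℝ)
    (hr : ∀ n, rS S n ≤ C0) (n0 : ℕ) (hn0 : 1 ≤ n0) (hlow : ∀ n, n0 ≤ n → n ≤ N → 1 ≤ rS S n)
    (h : ℕ) (hh : 0 < h) (Rst : ℝ) :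
    G1 S ≤ 25 / 32 * ∑ s ∈ Icc 1 N, (Rw S h s - Rst) ^ 2 / s +
      (3 * C0 * Real.exp 4 + 320 * n0 * C0 + 25 / 3 * (4 * h * C0 + 4 * |Rst|) ^ 2 +
        25 / 36 * (3 / 2 * C0 + |Rst|) ^ 2) := by
  have hC0 : 0 ≤ C0 := (rS_nonneg S 0).trans (hr 0)
  have hNR : (1 : ℝ) ≤ N := by exact_mod_cast hN
  have hN0 : (0 : ℝ) < N := by linarith
  have hS1 : ∀ a ∈ S, 1 ≤ a := fun a ha => (hS a ha).1
  set C1 := 4 * h * C0 + 4 * |Rst| with hC1
  set C2 := 3 / 2 * C0 + |Rst| with hC2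
  set g1 : ℝ → ℝ := fun x => 3 * N * C0 * Real.exp 4 * Real.exp (-(N * x)) with hg1
  set g2 : ℝ → ℝ := fun x => 160 * n0 * C0 * Real.exp (-(1 / 2 * x)) with hg2
  set g3 : ℝ → ℝ := fun x => 25 / 48 * ∑ s ∈ Icc 1 N, (Rw S h s - Rst) ^ 2 * Real.exp (-(2 / 3 * s * x)) with hg3
  set g4 : ℝ → ℝ := fun x => 25 / 3 * C1 ^ 2 * Real.exp (-(1 * x)) with hg4
  set g5 : ℝ → ℝ := fun x => 25 / 36 * C2 ^ 2 * N * Real.exp (-(N * x)) with hg5
  have i1 : IntegrableOn g1 (Set.Ioi 0) := (intExp_integrable N hN0).const_mul _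
  have i2 : IntegrableOn g2 (Set.Ioi 0) := (intExp_integrable (1 / 2) (by norm_num)).const_mul _
  have i3s : ∀ s ∈ Icc 1 N, IntegrableOn (fun x : ℝ => (Rw S h s - Rst) ^ 2 * Real.exp (-(2 / 3 * s * x))) (Set.Ioi 0) := by
    intro s hs
    rw [mem_Icc] at hs
    have : (1 : ℝ) ≤ s := by exact_mod_cast hs.1
    exact (intExp_integrable (2 / 3 * s) (by positivity)).const_mul _
  have i3' : IntegrableOn (fun x : ℝ => ∑ s ∈ Icc 1 N, (Rw S h s - Rst) ^ 2 * Real.exp (-(2 / 3 * s * x))) (Set.Ioi 0) :=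
    integrable_finsetSum _ i3s
  have i3 : IntegrableOn g3 (Set.Ioi 0) := i3'.const_mul _
  have i4 : IntegrableOn g4 (Set.Ioi 0) := (intExp_integrable 1 (by norm_num)).const_mul _
  have i5 : IntegrableOn g5 (Set.Ioi 0) := (intExp_integrable N hN0).const_mul _
  have e1 : ∫ x in Set.Ioi (0 : ℝ), g1 x = 3 * C0 * Real.exp 4 := by
    rw [hg1]
    simp only
    rw [integral_const_mul, intExp _ hN0]
    field_simp
  have e2 : ∫ x in Set.Ioi (0 : ℝ), g2 x = 320 * n0 * C0 := by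
    rw [hg2]
    simp only
    rw [integral_const_mul, intExp _ (by norm_num)]
    ring
  have e3 : ∫ x in Set.Ioi (0 : ℝ), g3 x = 25 / 32 * ∑ s ∈ Icc 1 N, (Rw S h s - Rst) ^ 2 / s := by
    rw [hg3]
    simp only
    rw [integral_const_mul, integral_finsetSum _ i3s, mul_sum, mul_sum]
    apply sum_congr rfl
    intro s hs
    rw [mem_Icc] at hs
    have : (1 : ℝ) ≤ s := by exact_mod_cast hs.1
    rw [integral_const_mul, intExp _ (by positivity)]
    field_simp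
    ring
  have e4 : ∫ x in Set.Ioi (0 : ℝ), g4 x = 25 / 3 * C1 ^ 2 := by
    rw [hg4]
    simp only
    rw [integral_const_mul, intExp _ (by norm_num)]
    ring
  have e5 : ∫ x in Set.Ioi (0 : ℝ), g5 x = 25 / 36 * C2 ^ 2 := by
    rw [hg5]
    simp only
    rw [integral_const_mul, intExp _ hN0]
    field_simp
  rw [G1_eq S hS1]
  have hmono : ∫ x in Set.Ioi (0 : ℝ), (∑ a ∈ S, (1 / 2 - a * x) * Real.exp (-(a * x))) ^ 2 ≤
      ∫ x in Set.Ioi (0 : ℝ), ((((g1 x + g2 x) + g3 x) + g4 x) + g5 x) := by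
    apply setIntegral_mono_on (G1_integrable S hS1) ((((i1.add i2).add i3).add i4).add i5) measurableSet_Ioi
    intro x hx
    have hx0 : (0 : ℝ) < x := hx
    have p1 : 0 ≤ g1 x := by
      rw [hg1]
      positivity
    have p2 : 0 ≤ g2 x := by
      rw [hg2]
      positivity
    have p3 : 0 ≤ g3 x := by
      rw [hg3]
      exact mul_nonneg (by norm_num) (sum_nonneg fun s _ => mul_nonneg (sq_nonneg _) (Real.exp_pos _).le)
    have p4 : 0 ≤ g4 x := by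
      rw [hg4]
      positivity
    have p5 : 0 ≤ g5 x := by
      rw [hg5]
      positivity
    have hgoal : fS S x ^ 2 ≤ (((g1 x + g2 x) + g3 x) + g4 x) + g5 x := by
      by_cases hc1 : x * N ≤ 4
      · have := fS_one S N hN hS C0 hr x hx0 hc1
        have h6 : fS S x ^ 2 ≤ g1 x := this
        linarith
      · rw [not_le] at hc1
        by_cases hc2 : 1 / (40 * (n0 : ℝ)) ≤ x
        · have h6 : fS S x ^ 2 ≤ g2 x := fS_three S N hS C0 hr n0 hn0 x hc2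
          linarith
        · rw [not_le] at hc2
          have h6 : fS S x ^ 2 ≤ g3 x + g4 x + g5 x :=
            fS_two S N hN hS C0 hr n0 hn0 hlow h hh Rst x hc2.le hc1
          linarith
    exact hgoal
  refine hmono.trans (le_of_eq ?_)
  have s1 : ∫ x in Set.Ioi (0 : ℝ), ((((g1 x + g2 x) + g3 x) + g4 x) + g5 x) =
      (∫ x in Set.Ioi (0 : ℝ), g1 x) + (∫ x in Set.Ioi (0 : ℝ), g2 x) + (∫ x in Set.Ioi (0 : ℝ), g3 x) +
        (∫ x in Set.Ioi (0 : ℝ), g4 x) + ∫ x in Set.Ioi (0 : ℝ), g5 x := by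
    have a1 : ∫ x in Set.Ioi (0 : ℝ), ((((g1 x + g2 x) + g3 x) + g4 x) + g5 x) =
        (∫ x in Set.Ioi (0 : ℝ), (((g1 x + g2 x) + g3 x) + g4 x)) + ∫ x in Set.Ioi (0 : ℝ), g5 x :=
      integral_add (((i1.add i2).add i3).add i4) i5
    have a2 : ∫ x in Set.Ioi (0 : ℝ), (((g1 x + g2 x) + g3 x) + g4 x) =
        (∫ x in Set.Ioi (0 : ℝ), ((g1 x + g2 x) + g3 x)) + ∫ x in Set.Ioi (0 : ℝ), g4 x :=
      integral_add ((i1.add i2).add i3) i4
    have a3 : ∫ x in Set.Ioi (0 : ℝ), ((g1 x + g2 x) + g3 x) =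
        (∫ x in Set.Ioi (0 : ℝ), (g1 x + g2 x)) + ∫ x in Set.Ioi (0 : ℝ), g3 x :=
      integral_add (i1.add i2) i3
    have a4 : ∫ x in Set.Ioi (0 : ℝ), (g1 x + g2 x) =
        (∫ x in Set.Ioi (0 : ℝ), g1 x) + ∫ x in Set.Ioi (0 : ℝ), g2 x :=
      integral_add i1 i2
    rw [a1, a2, a3, a4]
  rw [s1, e1, e2, e3, e4, e5]
  ring

end Pool.Agent.Helper80.ET
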