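import Mathlib

/-!
# Integrals of products of exponential polynomials
-/

set_option autoImplicit false

namespace Pool.Agent.Helper80.ET

open Finset MeasureTheory Set

theorem integrable_mono (m : ℕ) (M : ℝ) (hM : 0 < M) :
    IntegrableOn (fun x : ℝ => x ^ m * Real.exp (-(M * x))) (Ioi 0) := by
  have h1 := integrableOn_rpow_mul_exp_neg_mul_rpow (p := 1) (s := (m : ℝ)) (b := M)
    (lt_of_lt_of_le (by norm_num) (Nat.cast_nonneg m)) one_pos hM
  refine h1.congr_fun (fun x hx => ?_) measurableSet_Ioi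
  simp only [Real.rpow_one, Real.rpow_natCast]
  rw [neg_mul]

theorem integral_mono (m : ℕ) (M : ℝ) (hM : 0 < M) :
    ∫ x in Ioi (0 : ℝ), x ^ m * Real.exp (-(M * x)) = (m.factorial : ℝ) / M ^ (m + 1) := by
  have h1 := Real.integral_rpow_mul_exp_neg_mul_Ioi (a := (m : ℝ) + 1) (r := M)
    (by positivity) hM
  rw [Real.Gamma_nat_eq_factorial] at h1
  have h2 : ∫ x in Ioi (0 : ℝ), x ^ m * Real.exp (-(M * x)) =
      ∫ t in Ioi (0 : ℝ), t ^ ((m : ℝ) + 1 - 1) * Real.exp (-(M * t)) := by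
    apply setIntegral_congr_fun measurableSet_Ioi
    intro x _
    simp only [add_sub_cancel_right, Real.rpow_natCast]
  rw [h2, h1]
  have h3 : (1 / M) ^ ((m : ℝ) + 1) = (1 / M) ^ (m + 1) := by
    rw [← Real.rpow_natCast]
    push_cast
    rfl
  rw [h3, one_div, inv_pow]
  field_simp

/-- an exponential polynomial -/
noncomputable def tau (s : Fin 4 → ℝ) (μ x : ℝ) : ℝ := (∑ i, s i * x ^ (i : ℕ)) * Real.exp (-(μ * x))

/-- the value of `∫ tau s μ * tau s' μ'` -/
noncomputable def kap (s s' : Fin 4 → ℝ) (μ μ' : ℝ) : ℝ :=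
  ∑ i, ∑ j, s i * s' j * (((i : ℕ) + (j : ℕ)).factorial / (μ + μ') ^ ((i : ℕ) + (j : ℕ) + 1))

theorem tau_mul (s s' : Fin 4 → ℝ) (μ μ' x : ℝ) :
    tau s μ x * tau s' μ' x =
      ∑ i, ∑ j, s i * s' j * (x ^ ((i : ℕ) + (j : ℕ)) * Real.exp (-((μ + μ') * x))) := by
  unfold tau
  have h1 : Real.exp (-((μ + μ') * x)) = Real.exp (-(μ * x)) * Real.exp (-(μ' * x)) := by
    rw [← Real.exp_add]
    congr 1
    ring
  rw [h1]
  have h2 : (∑ i, s i * x ^ (i : ℕ)) * Real.exp (-(μ * x)) * ((∑ i, s' i * x ^ (i : ℕ)) * Real.exp (-(μ' * x))) =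
      ((∑ i, s i * x ^ (i : ℕ)) * (∑ i, s' i * x ^ (i : ℕ))) *
        (Real.exp (-(μ * x)) * Real.exp (-(μ' * x))) := by ring
  rw [h2, Finset.sum_mul_sum, Finset.sum_mul]
  apply Finset.sum_congr rfl
  intro i _
  rw [Finset.sum_mul]
  apply Finset.sum_congr rfl
  intro j _
  rw [pow_add]
  ring

theorem integrable_tau (s s' : Fin 4 → ℝ) (μ μ' : ℝ) (h : 0 < μ + μ') :
    IntegrableOn (fun x => tau s μ x * tau s' μ' x) (Ioi 0) := by
  simp only [tau_mul]
  apply integrable_finsetSum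
  intro i _
  apply integrable_finsetSum
  intro j _
  exact (integrable_mono _ _ h).const_mul _

theorem integral_tau (s s' : Fin 4 → ℝ) (μ μ' : ℝ) (h : 0 < μ + μ') :
    ∫ x in Ioi (0 : ℝ), tau s μ x * tau s' μ' x = kap s s' μ μ' := by
  simp only [tau_mul]
  unfold kap
  rw [integral_finsetSum]
  · apply Finset.sum_congr rfl
    intro i _
    rw [integral_finsetSum]
    · apply Finset.sum_congr rfl
      intro j _
      rw [integral_const_mul, integral_mono _ _ h]
    · intro j _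
      exact (integrable_mono _ _ h).const_mul _
  · intro i _
    apply integrable_finsetSum
    intro j _
    exact (integrable_mono _ _ h).const_mul _

theorem integrable_pairs {ι : Type*} (P : Finset ι) (s : ι → Fin 4 → ℝ) (μ : ι → ℝ)
    (hμ : ∀ p ∈ P, 0 < μ p) (C : ι → ι → ℝ) :
    IntegrableOn (fun x => ∑ p ∈ P, ∑ q ∈ P, C p q * (tau (s p) (μ p) x * tau (s q) (μ q) x)) (Ioi 0) := by
  apply integrable_finsetSum
  intro p hp
  apply integrable_finsetSum
  intro q hq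
  exact (integrable_tau _ _ _ _ (add_pos (hμ p hp) (hμ q hq))).const_mul _

theorem integral_pairs {ι : Type*} (P : Finset ι) (s : ι → Fin 4 → ℝ) (μ : ι → ℝ)
    (hμ : ∀ p ∈ P, 0 < μ p) (C : ι → ι → ℝ) :
    ∫ x in Ioi (0 : ℝ), ∑ p ∈ P, ∑ q ∈ P, C p q * (tau (s p) (μ p) x * tau (s q) (μ q) x) =
      ∑ p ∈ P, ∑ q ∈ P, C p q * kap (s p) (s q) (μ p) (μ q) := by
  rw [integral_finsetSum]
  · apply Finset.sum_congr rfl
    intro p hp
    rw [integral_finsetSum]
    · apply Finset.sum_congr rfl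
      intro q hq
      rw [integral_const_mul, integral_tau _ _ _ _ (add_pos (hμ p hp) (hμ q hq))]
    · intro q hq
      exact (integrable_tau _ _ _ _ (add_pos (hμ p hp) (hμ q hq))).const_mul _
  · intro p hp
    apply integrable_finsetSum
    intro q hq
    exact (integrable_tau _ _ _ _ (add_pos (hμ p hp) (hμ q hq))).const_mul _

/-- nonnegativity passes to the integrals -/
theorem pairs_nonneg {ι : Type*} (P : Finset ι) (s : ι → Fin 4 → ℝ) (μ : ι → ℝ)
    (hμ : ∀ p ∈ P, 0 < μ p) (C : ι → ι → ℝ)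
    (h : ∀ x : ℝ, 0 ≤ ∑ p ∈ P, ∑ q ∈ P, C p q * (tau (s p) (μ p) x * tau (s q) (μ q) x)) :
    0 ≤ ∑ p ∈ P, ∑ q ∈ P, C p q * kap (s p) (s q) (μ p) (μ q) := by
  rw [← integral_pairs P s μ hμ C]
  exact setIntegral_nonneg measurableSet_Ioi (fun x _ => h x)

end Pool.Agent.Helper80.ET
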