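import Pool.Agent.Helper80.ET.Integ

/-!
# The kernel

Let `P(a, c) = 13 + 4 (a + c) - 6 a c - (a² + c²) + 2 a c (a + c)` and
`P'(a, c) = 6 (a - c) - (a² - c²) + 2 a c (a - c)`.
-/

set_option autoImplicit false

namespace Pool.Agent.Helper80.ET

open Finset MeasureTheory Set

/-- the coefficients of `P(a x, c x)` -/
noncomputable def sC (a c : ℝ) : Fin 4 → ℝ :=
  ![13, 4 * (a + c), -(6 * a * c) - a ^ 2 - c ^ 2, 2 * a * c * (a + c)]

/-- the coefficients of `P'(a x, c x)` -/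
noncomputable def tC (a c : ℝ) : Fin 4 → ℝ :=
  ![0, 6 * (a - c), -(a ^ 2 - c ^ 2), 2 * a * c * (a - c)]

/-- `∫ (P(ax, cx) P(a'x, c'x) + P'(ax, cx) P'(a'x, c'x)) exp(-(a + c + a' + c') x / 2)` -/
noncomputable def Kf (a c a' c' : ℝ) : ℝ :=
  kap (sC a c) (sC a' c') ((a + c) / 2) ((a' + c') / 2) +
    kap (tC a c) (tC a' c') ((a + c) / 2) ((a' + c') / 2)

/-- the error term -/
noncomputable def Er (d u v M : ℝ) : ℝ :=
  372 * d * (u ^ 2 - v ^ 2) * M ^ 3 - 398 * d ^ 2 * M ^ 4 + 72 * d ^ 2 * (u ^ 2 + v ^ 2) * M ^ 2 -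
    2880 * d ^ 2 * u ^ 2 * v ^ 2 - 1200 * d ^ 3 * (u ^ 2 - v ^ 2) * M + 468 * d ^ 4 * M ^ 2 +
    720 * d ^ 4 * (u ^ 2 + v ^ 2) - 180 * d ^ 6

theorem Kf_sym (a c a' c' M : ℝ) (hM : 0 < M) (h : a + c + a' + c' = 2 * M) :
    Kf a c a' c' + Kf a a' c c' =
      2 * (315 / M + Er ((a + c' - c - a') / 2) ((a - c') / 2) ((c - a') / 2) M / M ^ 7) := by
  have hc : c' = 2 * M - a - c - a' := by linarith
  have h1 : (a + c) / 2 + (a' + c') / 2 = M := by linarith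
  have h2 : (a + a') / 2 + (c + c') / 2 = M := by linarith
  unfold Kf kap
  rw [h1, h2]
  subst hc
  simp only [Fin.sum_univ_four, sC, tC, Er, Matrix.cons_val_zero, Matrix.cons_val_one, Matrix.cons_val,
    Fin.val_zero, Fin.val_one, Fin.val_two, Fin.isValue]
  norm_num [Nat.factorial]
  field_simp
  ring

theorem abs_mul_le' {x y a b : ℝ} (hx : |x| ≤ a) (hy : |y| ≤ b) : |x * y| ≤ a * b := by
  rw [abs_mul]
  exact mul_le_mul hx hy (abs_nonneg _) ((abs_nonneg _).trans hx)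

theorem Er_bound (d u v M : ℝ) (hM : 0 < M) (hd : |d| ≤ M) (hu : |u| ≤ M) (hv : |v| ≤ M) :
    |Er d u v M| ≤ 7082 * |d| * M ^ 5 := by
  obtain ⟨e, rfl⟩ : ∃ e, d = M * e := ⟨d / M, by field_simp⟩
  obtain ⟨f, rfl⟩ : ∃ f, u = M * f := ⟨u / M, by field_simp⟩
  obtain ⟨g, rfl⟩ : ∃ g, v = M * g := ⟨v / M, by field_simp⟩
  rw [abs_mul, abs_of_pos hM] at hd hu hv
  have he : |e| ≤ 1 := by
    by_contra hc
    rw [not_le] at hc
    nlinarith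
  have hf : |f| ≤ 1 := by
    by_contra hc
    rw [not_le] at hc
    nlinarith
  have hg : |g| ≤ 1 := by
    by_contra hc
    rw [not_le] at hc
    nlinarith
  have hf2 : f ^ 2 ≤ 1 := by
    rw [← sq_abs]
    nlinarith [abs_nonneg f]
  have hg2 : g ^ 2 ≤ 1 := by
    rw [← sq_abs]
    nlinarith [abs_nonneg g]
  have hpow : ∀ k : ℕ, |e ^ k| ≤ 1 := by
    intro k
    rw [abs_pow]
    exact pow_le_one₀ (abs_nonneg _) he
  have hm : |f ^ 2 - g ^ 2| ≤ 1 := by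
    rw [abs_le]
    constructor <;> nlinarith [sq_nonneg f, sq_nonneg g]
  have hp : |f ^ 2 + g ^ 2| ≤ 2 := by
    rw [abs_le]
    constructor <;> nlinarith [sq_nonneg f, sq_nonneg g]
  have hpr : |f ^ 2 * g ^ 2| ≤ 1 := by
    have : |f ^ 2| ≤ 1 := by rw [abs_of_nonneg (sq_nonneg _)]; exact hf2
    have h2 : |g ^ 2| ≤ 1 := by rw [abs_of_nonneg (sq_nonneg _)]; exact hg2
    simpa using abs_mul_le' this h2
  have key : Er (M * e) (M * f) (M * g) M = M * e * M ^ 5 *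
      (372 * (f ^ 2 - g ^ 2) - 398 * e ^ 1 + 72 * (e ^ 1 * (f ^ 2 + g ^ 2)) - 2880 * (e ^ 1 * (f ^ 2 * g ^ 2)) -
        1200 * (e ^ 2 * (f ^ 2 - g ^ 2)) + 468 * e ^ 3 + 720 * (e ^ 3 * (f ^ 2 + g ^ 2)) - 180 * e ^ 5) := by
    unfold Er
    ring
  rw [key, abs_mul, abs_mul (M * e), abs_of_pos (by positivity : 0 < M ^ 5)]
  have hF : |372 * (f ^ 2 - g ^ 2) - 398 * e ^ 1 + 72 * (e ^ 1 * (f ^ 2 + g ^ 2)) - 2880 * (e ^ 1 * (f ^ 2 * g ^ 2)) -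
        1200 * (e ^ 2 * (f ^ 2 - g ^ 2)) + 468 * e ^ 3 + 720 * (e ^ 3 * (f ^ 2 + g ^ 2)) - 180 * e ^ 5| ≤ 7082 := by
    have h1 := abs_le.1 hm
    have h2 := abs_le.1 (hpow 1)
    have h3 := abs_le.1 (abs_mul_le' (hpow 1) hp)
    have h4 := abs_le.1 (abs_mul_le' (hpow 1) hpr)
    have h5 := abs_le.1 (abs_mul_le' (hpow 2) hm)
    have h6 := abs_le.1 (hpow 3)
    have h7 := abs_le.1 (abs_mul_le' (hpow 3) hp)
    have h8 := abs_le.1 (hpow 5)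
    rw [abs_le]
    constructor <;> linarith [h1.1, h1.2, h2.1, h2.2, h3.1, h3.2, h4.1, h4.2, h5.1, h5.2, h6.1, h6.2,
      h7.1, h7.2, h8.1, h8.2]
  have h9 : 0 ≤ |M * e| * M ^ 5 := by positivity
  calc _ ≤ |M * e| * M ^ 5 * 7082 := mul_le_mul_of_nonneg_left hF h9
    _ = 7082 * |M * e| * M ^ 5 := by ring

end Pool.Agent.Helper80.ET
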