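import Pool.Agent.Helper80.ET.Master1

/-!
# The lower bound for the term with key zero
-/

set_option autoImplicit false

namespace Pool.Agent.Helper80.ET

open Finset MeasureTheory

/-- the coefficients of `1/2 - a x` -/
noncomputable def gC (a : ℝ) : Fin 4 → ℝ := ![1 / 2, -a, 0, 0]

/-- the coefficients of `P(a x, a x) - 37/2` -/
noncomputable def uC (a : ℝ) : Fin 4 → ℝ := ![13 - 37 / 2, 8 * a, -(8 * a ^ 2), 4 * a ^ 3]

/-- `∫ (∑ (1/2 - a x) exp(-a x))²` -/
noncomputable def G1 (S : Finset ℕ) : ℝ := ∑ a ∈ S, ∑ b ∈ S, kap (gC a) (gC b) a b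

theorem kap_identity (a b : ℝ) (h : 0 < a + b) :
    kap (sC a a) (sC b b) a b - 1369 / 4 * (1 / (a + b)) + 370 * kap (gC a) (gC b) a b =
      kap (uC a) (uC b) a b := by
  unfold kap
  simp only [Fin.sum_univ_four, sC, gC, uC, Matrix.cons_val_zero, Matrix.cons_val_one, Matrix.cons_val,
    Fin.val_zero, Fin.val_one, Fin.val_two, Fin.isValue]
  norm_num [Nat.factorial]
  field_simp
  ring

theorem I0_ge (S : Finset ℕ) (hS : ∀ a ∈ S, 1 ≤ a) :
    1369 / 4 * ∑ a ∈ S, ∑ b ∈ S, 1 / ((a : ℝ) + b) - 370 * G1 S ≤ I0 S := by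
  have h1 : 0 ≤ ∑ a ∈ S, ∑ b ∈ S, (1 : ℝ) * kap (uC a) (uC b) a b := by
    apply pairs_nonneg S (fun a => uC a) (fun a => (a : ℝ)) _ (fun _ _ => (1 : ℝ))
    · intro x
      have : ∑ p ∈ S, ∑ q ∈ S, (1 : ℝ) * (tau (uC p) p x * tau (uC q) q x) = (∑ p ∈ S, tau (uC p) p x) ^ 2 := by
        rw [pow_two, sum_mul_sum]
        simp
      rw [this]
      positivity
    · intro a ha
      exact_mod_cast hS a ha
  have h2 : ∑ a ∈ S, ∑ b ∈ S, (1 : ℝ) * kap (uC a) (uC b) a b =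
      I0 S - 1369 / 4 * (∑ a ∈ S, ∑ b ∈ S, 1 / ((a : ℝ) + b)) + 370 * G1 S := by
    unfold I0 G1
    simp only [mul_sum, ← sum_sub_distrib, ← sum_add_distrib]
    apply sum_congr rfl
    intro a ha
    apply sum_congr rfl
    intro b hb
    have ha1 : (1 : ℝ) ≤ a := by exact_mod_cast hS _ ha
    have hb1 : (1 : ℝ) ≤ b := by exact_mod_cast hS _ hb
    rw [kap_identity a b (by linarith), one_mul]
  rw [h2] at h1
  linarith

theorem tau_gC (a x : ℝ) : tau (gC a) a x = (1 / 2 - a * x) * Real.exp (-(a * x)) := by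
  unfold tau gC
  simp only [Fin.sum_univ_four, Matrix.cons_val_zero, Matrix.cons_val_one, Matrix.cons_val,
    Fin.val_zero, Fin.val_one, Fin.val_two, Fin.isValue]
  ring

theorem G1_eq (S : Finset ℕ) (hS : ∀ a ∈ S, 1 ≤ a) :
    G1 S = ∫ x in Set.Ioi (0 : ℝ), (∑ a ∈ S, (1 / 2 - a * x) * Real.exp (-(a * x))) ^ 2 := by
  have h1 := integral_pairs S (fun a => gC a) (fun a => (a : ℝ)) (fun a ha => by
    have : 1 ≤ a := hS a ha
    have : (1 : ℝ) ≤ (a : ℝ) := by exact_mod_cast this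
    linarith) (fun _ _ => (1 : ℝ))
  unfold G1
  simp only [one_mul] at h1
  rw [← h1]
  apply setIntegral_congr_fun measurableSet_Ioi
  intro x _
  simp only [tau_gC]
  rw [pow_two, sum_mul_sum]

theorem G1_integrable (S : Finset ℕ) (hS : ∀ a ∈ S, 1 ≤ a) :
    IntegrableOn (fun x : ℝ => (∑ a ∈ S, (1 / 2 - a * x) * Real.exp (-(a * x))) ^ 2) (Set.Ioi 0) := by
  have h1 := integrable_pairs S (fun a => gC a) (fun a => (a : ℝ)) (fun a ha => by
    have : 1 ≤ a := hS a ha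
    have : (1 : ℝ) ≤ (a : ℝ) := by exact_mod_cast this
    linarith) (fun _ _ => (1 : ℝ))
  refine h1.congr_fun (fun x _ => ?_) measurableSet_Ioi
  simp only [tau_gC, one_mul]
  rw [pow_two, sum_mul_sum]

end Pool.Agent.Helper80.ET
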