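import Pool.Agent.Helper80.ET.Quad
import Pool.Agent.Helper80.ET.Ker

/-!
# The second moment inequality for the representation function of a finite set
-/

set_option autoImplicit false

namespace Pool.Agent.Helper80.ET

open Finset

/-- the number of `(a, b) ∈ S × S` with `a + b = n` -/
noncomputable def rS (S : Finset ℕ) (n : ℕ) : ℝ := ∑ a ∈ S, ∑ b ∈ S, if a + b = n then 1 else 0

theorem rS_nonneg (S : Finset ℕ) (n : ℕ) : 0 ≤ rS S n := by
  unfold rS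
  exact sum_nonneg fun a _ => sum_nonneg fun b _ => by split_ifs <;> norm_num

theorem rS_group (S : Finset ℕ) (L : ℕ) (hL : ∀ a ∈ S, ∀ b ∈ S, a + b < L) (F : ℕ → ℝ) :
    ∑ a ∈ S, ∑ b ∈ S, F (a + b) = ∑ n ∈ range L, rS S n * F n := by
  unfold rS
  simp only [sum_mul]
  conv_rhs => rw [sum_comm]
  apply sum_congr rfl
  intro a ha
  conv_rhs => rw [sum_comm]
  apply sum_congr rfl
  intro b hb
  rw [sum_eq_single (a + b)]
  · simp
  · intro n _ hne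
    rw [if_neg (Ne.symm hne), zero_mul]
  · intro hn
    exact absurd (mem_range.2 (hL a ha b hb)) hn

theorem quad_group (S : Finset ℕ) (L : ℕ) (hL : ∀ a ∈ S, ∀ b ∈ S, a + b < L) (F : ℕ → ℕ → ℝ) :
    ∑ a ∈ S, ∑ c ∈ S, ∑ a' ∈ S, ∑ c' ∈ S, F (a + c') (a' + c) =
      ∑ n ∈ range L, ∑ n' ∈ range L, rS S n * rS S n' * F n n' := by
  have h1 : ∑ a ∈ S, ∑ c ∈ S, ∑ a' ∈ S, ∑ c' ∈ S, F (a + c') (a' + c) =
      ∑ a ∈ S, ∑ c' ∈ S, ∑ a' ∈ S, ∑ c ∈ S, F (a + c') (a' + c) := by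
    apply sum_congr rfl
    intro a _
    rw [sum_comm]
    have : ∀ a' ∈ S, ∑ c ∈ S, ∑ c' ∈ S, F (a + c') (a' + c) = ∑ c' ∈ S, ∑ c ∈ S, F (a + c') (a' + c) :=
      fun a' _ => sum_comm
    rw [sum_congr rfl this, sum_comm]
  rw [h1]
  have h2 : ∀ m : ℕ, ∑ a' ∈ S, ∑ c ∈ S, F m (a' + c) = ∑ n' ∈ range L, rS S n' * F m n' :=
    fun m => rS_group S L hL (F m)
  simp only [h2]
  rw [rS_group S L hL (fun m => ∑ n' ∈ range L, rS S n' * F m n')]
  apply sum_congr rfl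
  intro n _
  rw [mul_sum]
  apply sum_congr rfl
  intro n' _
  ring

theorem sum_swap (S : Finset ℕ) (G : ℕ → ℕ → ℕ → ℕ → ℝ) :
    ∑ a ∈ S, ∑ c ∈ S, ∑ a' ∈ S, ∑ c' ∈ S, G a c a' c' = ∑ a ∈ S, ∑ c ∈ S, ∑ a' ∈ S, ∑ c' ∈ S, G a a' c c' := by
  apply sum_congr rfl
  intro a _
  rw [sum_comm]

theorem tC_self (a : ℝ) : tC a a = 0 := by
  unfold tC
  ext i
  fin_cases i <;> simp

theorem kap_zero_left (s : Fin 4 → ℝ) (μ μ' : ℝ) : kap 0 s μ μ' = 0 := by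
  unfold kap
  simp

theorem master0 (S : Finset ℕ) (hS : ∀ a ∈ S, 1 ≤ a) (h : ℕ) (hh : 0 < h) (θ : ℝ) (hθ : 0 < θ) :
    ∑ a ∈ S, ∑ c ∈ S, ∑ a' ∈ S, ∑ c' ∈ S, V h ((a : ℤ) - c - ((a' : ℤ) - c')) * Kf a c a' c' ≤
      (h : ℝ) ^ 2 * ((1 + θ) * (∑ a ∈ S, ∑ c ∈ S, ∑ a' ∈ S, ∑ c' ∈ S,
          (if (a : ℤ) - c - ((a' : ℤ) - c') = 0 then 1 else 0) * Kf a c a' c') -
        (1 - (1 + 1 / θ) / h) * ∑ a ∈ S, ∑ b ∈ S, kap (sC a a) (sC b b) a b) := by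
  classical
  set P : Finset (ℕ × ℕ) := S ×ˢ S with hP
  set key : ℕ × ℕ → ℤ := fun p => (p.1 : ℤ) - p.2 with hkey
  set μ : ℕ × ℕ → ℝ := fun p => ((p.1 : ℝ) + p.2) / 2 with hμ
  have hμ0 : ∀ p ∈ P, 0 < μ p := by
    intro p hp
    rw [hP, mem_product] at hp
    have h1 : (1 : ℝ) ≤ p.1 := by exact_mod_cast hS _ hp.1
    have h2 : (1 : ℝ) ≤ p.2 := by exact_mod_cast hS _ hp.2
    simp only [hμ]
    linarith
  set C : ℕ × ℕ → ℕ × ℕ → ℝ := fun p q => (h : ℝ) ^ 2 * ((1 + θ) * (if key p = key q then 1 else 0) -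
    (1 - (1 + 1 / θ) / h) * (if key p = 0 ∧ key q = 0 then 1 else 0)) - V h (key p - key q) with hC
  have hgen : ∀ s : ℕ × ℕ → Fin 4 → ℝ, 0 ≤ ∑ p ∈ P, ∑ q ∈ P, C p q * kap (s p) (s q) (μ p) (μ q) := by
    intro s
    apply pairs_nonneg P s μ hμ0 C
    intro x
    have h1 := pair_le P key (fun p => tau (s p) (μ p) x) h hh θ hθ
    have h2 : ∑ p ∈ P, ∑ q ∈ P, C p q * (tau (s p) (μ p) x * tau (s q) (μ q) x) =
        (h : ℝ) ^ 2 * ((1 + θ) * ∑ p ∈ P, ∑ q ∈ P, (if key p = key q then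
          tau (s p) (μ p) x * tau (s q) (μ q) x else 0) - (1 - (1 + 1 / θ) / h) *
          ∑ p ∈ P, ∑ q ∈ P, (if key p = 0 ∧ key q = 0 then tau (s p) (μ p) x * tau (s q) (μ q) x else 0)) -
        ∑ p ∈ P, ∑ q ∈ P, V h (key p - key q) * (tau (s p) (μ p) x * tau (s q) (μ q) x) := by
      rw [mul_sub, ← mul_assoc, ← mul_assoc]
      simp only [mul_sum]
      simp only [← sum_sub_distrib]
      apply sum_congr rfl
      intro p _
      apply sum_congr rfl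
      intro q _
      simp only [hC]
      split_ifs <;> ring
    rw [h2]
    linarith
  have hs := hgen (fun p => sC p.1 p.2)
  have ht := hgen (fun p => tC p.1 p.2)
  have h1 : ∑ p ∈ P, ∑ q ∈ P, C p q * kap (sC p.1 p.2) (sC q.1 q.2) (μ p) (μ q) +
      ∑ p ∈ P, ∑ q ∈ P, C p q * kap (tC p.1 p.2) (tC q.1 q.2) (μ p) (μ q) =
      ∑ p ∈ P, ∑ q ∈ P, C p q * Kf p.1 p.2 q.1 q.2 := by
    rw [← sum_add_distrib]
    apply sum_congr rfl
    intro p _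
    rw [← sum_add_distrib]
    apply sum_congr rfl
    intro q _
    unfold Kf
    ring
  have h2 : 0 ≤ ∑ p ∈ P, ∑ q ∈ P, C p q * Kf p.1 p.2 q.1 q.2 := by
    rw [← h1]
    exact add_nonneg hs ht
  have hz : ∑ p ∈ P, ∑ q ∈ P, (if key p = 0 ∧ key q = 0 then (1 : ℝ) else 0) * Kf p.1 p.2 q.1 q.2 =
      ∑ a ∈ S, ∑ b ∈ S, kap (sC a a) (sC b b) a b := by
    have h3 : ∀ a ∈ S, ∀ c ∈ S, (if (a : ℤ) - c = 0 then (1 : ℝ) else 0) = if c = a then 1 else 0 := by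
      intro a _ c _
      by_cases hac : c = a
      · rw [if_pos hac, if_pos (by omega)]
      · rw [if_neg hac, if_neg (by omega)]
    rw [hP, sum_product]
    apply sum_congr rfl
    intro a ha
    rw [sum_eq_single a]
    · rw [sum_product]
      apply sum_congr rfl
      intro b hb
      rw [sum_eq_single b]
      · have : key (a, a) = 0 ∧ key (b, b) = 0 := by simp [hkey]
        rw [if_pos this, one_mul]
        simp only [Kf, tC_self, kap_zero_left, add_zero]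
        congr 1 <;> ring
      · intro c _ hcb
        rw [if_neg, zero_mul]
        rintro ⟨_, h5⟩
        simp only [hkey] at h5
        exact hcb (by omega)
      · intro hn
        exact absurd hb hn
    · intro c _ hca
      apply sum_eq_zero
      intro q _
      rw [if_neg, zero_mul]
      rintro ⟨h5, _⟩
      simp only [hkey] at h5
      exact hca (by omega)
    · intro hn
      exact absurd ha hn
  have h3 : ∑ p ∈ P, ∑ q ∈ P, C p q * Kf p.1 p.2 q.1 q.2 =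
      (h : ℝ) ^ 2 * ((1 + θ) * (∑ p ∈ P, ∑ q ∈ P, (if key p = key q then (1 : ℝ) else 0) * Kf p.1 p.2 q.1 q.2) -
        (1 - (1 + 1 / θ) / h) *
          ∑ p ∈ P, ∑ q ∈ P, (if key p = 0 ∧ key q = 0 then (1 : ℝ) else 0) * Kf p.1 p.2 q.1 q.2) -
      ∑ p ∈ P, ∑ q ∈ P, V h (key p - key q) * Kf p.1 p.2 q.1 q.2 := by
    rw [mul_sub, ← mul_assoc, ← mul_assoc]
    simp only [mul_sum]
    simp only [← sum_sub_distrib]
    apply sum_congr rfl
    intro p _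
    apply sum_congr rfl
    intro q _
    simp only [hC]
    split_ifs <;> ring
  rw [h3, hz] at h2
  have h4 : ∑ p ∈ P, ∑ q ∈ P, V h (key p - key q) * Kf p.1 p.2 q.1 q.2 =
      ∑ a ∈ S, ∑ c ∈ S, ∑ a' ∈ S, ∑ c' ∈ S, V h ((a : ℤ) - c - ((a' : ℤ) - c')) * Kf a c a' c' := by
    rw [hP, sum_product]
    apply sum_congr rfl
    intro a _
    apply sum_congr rfl
    intro c _
    rw [sum_product]
  have h5 : ∑ p ∈ P, ∑ q ∈ P, (if key p = key q then (1 : ℝ) else 0) * Kf p.1 p.2 q.1 q.2 =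
      ∑ a ∈ S, ∑ c ∈ S, ∑ a' ∈ S, ∑ c' ∈ S,
          (if (a : ℤ) - c - ((a' : ℤ) - c') = 0 then 1 else 0) * Kf a c a' c' := by
    rw [hP, sum_product]
    apply sum_congr rfl
    intro a _
    apply sum_congr rfl
    intro c _
    rw [sum_product]
    apply sum_congr rfl
    intro a' _
    apply sum_congr rfl
    intro c' _
    simp only [hkey, sub_eq_zero]
  rw [h4, h5] at h2
  linarith

/-- symmetrisation -/
theorem sym_sum (S : Finset ℕ) (hS : ∀ a ∈ S, 1 ≤ a) (w : ℤ → ℝ) :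
    ∑ a ∈ S, ∑ c ∈ S, ∑ a' ∈ S, ∑ c' ∈ S, w ((a : ℤ) - c - ((a' : ℤ) - c')) * Kf a c a' c' =
      ∑ a ∈ S, ∑ c ∈ S, ∑ a' ∈ S, ∑ c' ∈ S, w ((a : ℤ) - c - ((a' : ℤ) - c')) *
        (315 / (((a : ℝ) + c + a' + c') / 2) +
          Er (((a : ℝ) + c' - c - a') / 2) (((a : ℝ) - c') / 2) (((c : ℝ) - a') / 2)
            (((a : ℝ) + c + a' + c') / 2) / (((a : ℝ) + c + a' + c') / 2) ^ 7) := by
  have h1 := sum_swap S (fun a c a' c' => w ((a : ℤ) - c - ((a' : ℤ) - c')) * Kf a c a' c')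
  have h2 : 2 * ∑ a ∈ S, ∑ c ∈ S, ∑ a' ∈ S, ∑ c' ∈ S, w ((a : ℤ) - c - ((a' : ℤ) - c')) * Kf a c a' c' =
      2 * ∑ a ∈ S, ∑ c ∈ S, ∑ a' ∈ S, ∑ c' ∈ S, w ((a : ℤ) - c - ((a' : ℤ) - c')) *
        (315 / (((a : ℝ) + c + a' + c') / 2) +
          Er (((a : ℝ) + c' - c - a') / 2) (((a : ℝ) - c') / 2) (((c : ℝ) - a') / 2)
            (((a : ℝ) + c + a' + c') / 2) / (((a : ℝ) + c + a' + c') / 2) ^ 7) := by
    nth_rewrite 1 [two_mul]
    nth_rewrite 2 [h1]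
    simp only [mul_sum, ← sum_add_distrib]
    apply sum_congr rfl
    intro a ha
    apply sum_congr rfl
    intro c hc
    apply sum_congr rfl
    intro a' ha'
    apply sum_congr rfl
    intro c' hc'
    have ha1 : (1 : ℝ) ≤ a := by exact_mod_cast hS _ ha
    have hc1 : (1 : ℝ) ≤ c := by exact_mod_cast hS _ hc
    have ha1' : (1 : ℝ) ≤ a' := by exact_mod_cast hS _ ha'
    have hc1' : (1 : ℝ) ≤ c' := by exact_mod_cast hS _ hc'
    have h3 := Kf_sym a c a' c' (((a : ℝ) + c + a' + c') / 2) (by linarith) (by ring)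
    have h4 : (a : ℤ) - a' - ((c : ℤ) - c') = (a : ℤ) - c - ((a' : ℤ) - c') := by ring
    rw [h4, ← mul_add, h3]
    ring
  linarith

end Pool.Agent.Helper80.ET
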