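import Pool.Agent.Helper80.ET.Master

/-!
# The second moment inequality in terms of the representation function
-/

set_option autoImplicit false

namespace Pool.Agent.Helper80.ET

open Finset

theorem sum_inv_sq (L : ℕ) : ∑ n ∈ range L, 1 / (n : ℝ) ^ 2 ≤ 2 := by
  have h1 : ∀ L : ℕ, ∑ n ∈ range (L + 2), 1 / (n : ℝ) ^ 2 ≤ 2 - 1 / ((L : ℝ) + 1) := by
    intro L
    induction L with
    | zero =>
      simp [sum_range_succ]
      norm_num
    | succ L ih =>
      rw [sum_range_succ]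
      have h2 : (1 : ℝ) / ((L + 2 : ℕ) : ℝ) ^ 2 ≤ 1 / ((L : ℝ) + 1) - 1 / ((L : ℝ) + 1 + 1) := by
        push_cast
        rw [div_sub_div _ _ (by positivity) (by positivity), div_le_div_iff₀ (by positivity) (by positivity)]
        ring_nf
        nlinarith [Nat.cast_nonneg (α := ℝ) L]
      push_cast at h2 ⊢
      have h3 : ((L : ℝ) + 1 + 1) = (L : ℝ) + 2 := by ring
      rw [h3] at h2 ⊢
      linarith
  have h2 : ∑ n ∈ range L, 1 / (n : ℝ) ^ 2 ≤ ∑ n ∈ range (L + 2), 1 / (n : ℝ) ^ 2 := by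
    apply sum_le_sum_of_subset_of_nonneg
    · intro n hn
      rw [mem_range] at hn ⊢
      omega
    · intro n _ _
      positivity
  have h3 := h1 L
  have h4 : 0 ≤ 1 / ((L : ℝ) + 1) := by positivity
  linarith

theorem V_eq_sum (h : ℕ) (δ : ℤ) :
    V h δ = ∑ j ∈ range h, ∑ j' ∈ range h, if (j : ℤ) - j' = δ then (1 : ℝ) else 0 := by
  unfold V
  rw [card_filter, sum_product]
  push_cast
  rfl

theorem window_le (F : ℕ → ℕ → ℝ) (hF : ∀ n n', 0 ≤ F n n') (L : ℕ)
    (hs : ∀ n n', (L ≤ n ∨ L ≤ n') → F n n' = 0) (I : Finset ℕ) (h : ℕ) :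
    ∑ s ∈ I, ∑ j ∈ range h, ∑ j' ∈ range h, F (s + j) (s + j') ≤
      ∑ n ∈ range L, ∑ n' ∈ range L, V h ((n : ℤ) - n') * F n n' := by
  have h1 : ∑ n ∈ range L, ∑ n' ∈ range L, V h ((n : ℤ) - n') * F n n' =
      ∑ j ∈ range h, ∑ j' ∈ range h, ∑ p ∈ range L ×ˢ range L,
        (if (j : ℤ) - j' = (p.1 : ℤ) - p.2 then (1 : ℝ) else 0) * F p.1 p.2 := by
    rw [← sum_product']
    have h2 : ∀ p ∈ range L ×ˢ range L, V h ((p.1 : ℤ) - p.2) * F p.1 p.2 =
        ∑ j ∈ range h, ∑ j' ∈ range h, (if (j : ℤ) - j' = (p.1 : ℤ) - p.2 then (1 : ℝ) else 0) * F p.1 p.2 := by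
      intro p _
      rw [V_eq_sum, sum_mul]
      apply sum_congr rfl
      intro j _
      rw [sum_mul]
    rw [sum_congr rfl h2, sum_comm]
    apply sum_congr rfl
    intro j _
    rw [sum_comm]
  rw [h1, sum_comm]
  apply sum_le_sum
  intro j _
  rw [sum_comm]
  apply sum_le_sum
  intro j' _
  have h3 : ∑ s ∈ I, F (s + j) (s + j') = ∑ s ∈ I.filter (fun s => s + j < L ∧ s + j' < L), F (s + j) (s + j') := by
    rw [sum_filter]
    apply sum_congr rfl
    intro s _
    by_cases hc : s + j < L ∧ s + j' < L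
    · rw [if_pos hc]
    · rw [if_neg hc]
      apply hs
      by_contra hn
      apply hc
      push Not at hn
      exact hn
  rw [h3]
  have h4 : ∑ s ∈ I.filter (fun s => s + j < L ∧ s + j' < L), F (s + j) (s + j') =
      ∑ p ∈ (I.filter (fun s => s + j < L ∧ s + j' < L)).image (fun s => (s + j, s + j')), F p.1 p.2 := by
    rw [sum_image]
    intro s _ t _ hst
    simp only [Prod.mk.injEq] at hst
    omega
  rw [h4]
  have h5 : ∀ p ∈ (I.filter (fun s => s + j < L ∧ s + j' < L)).image (fun s => (s + j, s + j')),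
      F p.1 p.2 = (if (j : ℤ) - j' = (p.1 : ℤ) - p.2 then (1 : ℝ) else 0) * F p.1 p.2 := by
    intro p hp
    rw [mem_image] at hp
    obtain ⟨s, _, rfl⟩ := hp
    rw [if_pos (by push_cast; ring), one_mul]
  rw [sum_congr rfl h5]
  apply sum_le_sum_of_subset_of_nonneg
  · intro p hp
    rw [mem_image] at hp
    obtain ⟨s, hs', rfl⟩ := hp
    rw [mem_filter] at hs'
    rw [mem_product, mem_range, mem_range]
    exact hs'.2
  · intro p _ _
    apply mul_nonneg _ (hF _ _)
    split_ifs <;> norm_num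

/-- the integral of the square of the term with key zero -/
noncomputable def I0 (S : Finset ℕ) : ℝ := ∑ a ∈ S, ∑ b ∈ S, kap (sC a a) (sC b b) a b

theorem rS_zero_of_large (S : Finset ℕ) (N : ℕ) (hS : ∀ a ∈ S, 1 ≤ a ∧ a ≤ N) (n : ℕ)
    (hn : 2 * N + 1 ≤ n) : rS S n = 0 := by
  unfold rS
  apply sum_eq_zero
  intro a ha
  apply sum_eq_zero
  intro b hb
  rw [if_neg]
  have := (hS a ha).2
  have := (hS b hb).2
  omega

theorem rS_zero_zero (S : Finset ℕ) (N : ℕ) (hS : ∀ a ∈ S, 1 ≤ a ∧ a ≤ N) : rS S 0 = 0 := by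
  unfold rS
  apply sum_eq_zero
  intro a ha
  apply sum_eq_zero
  intro b hb
  rw [if_neg]
  have := (hS a ha).1
  omega

theorem master1 (S : Finset ℕ) (N : ℕ) (hS : ∀ a ∈ S, 1 ≤ a ∧ a ≤ N) (C0 : ℝ) (hr : ∀ n, rS S n ≤ C0)
    (h : ℕ) (hh : 0 < h) (θ : ℝ) (hθ : 0 < θ) :
    315 * ∑ s ∈ Icc 1 N, ((∑ j ∈ range h, rS S (s + j)) / h) ^ 2 / ((s : ℝ) + h) ≤
      (1 + θ) * (315 * ∑ n ∈ range (2 * N + 1), rS S n ^ 2 / n) - (1 - (1 + 1 / θ) / h) * I0 S +
        28328 * h * C0 ^ 2 := by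
  have hS1 : ∀ a ∈ S, 1 ≤ a := fun a ha => (hS a ha).1
  have hC0 : 0 ≤ C0 := (rS_nonneg S 0).trans (hr 0)
  have hhR : (0 : ℝ) < h := by exact_mod_cast hh
  set L := 2 * N + 1 with hLdef
  have hL : ∀ a ∈ S, ∀ b ∈ S, a + b < L := by
    intro a ha b hb
    have := (hS a ha).2
    have := (hS b hb).2
    omega
  have h0 := master0 S hS1 h hh θ hθ
  -- the diagonal part
  have h1 : ∑ a ∈ S, ∑ c ∈ S, ∑ a' ∈ S, ∑ c' ∈ S,
      (if (a : ℤ) - c - ((a' : ℤ) - c') = 0 then (1 : ℝ) else 0) * Kf a c a' c' =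
      315 * ∑ n ∈ range L, rS S n ^ 2 / n := by
    rw [sym_sum S hS1 (fun δ => if δ = 0 then (1 : ℝ) else 0)]
    have h2 : ∀ a ∈ S, ∀ c ∈ S, ∀ a' ∈ S, ∀ c' ∈ S,
        (if (a : ℤ) - c - ((a' : ℤ) - c') = 0 then (1 : ℝ) else 0) *
        (315 / (((a : ℝ) + c + a' + c') / 2) +
          Er (((a : ℝ) + c' - c - a') / 2) (((a : ℝ) - c') / 2) (((c : ℝ) - a') / 2)
            (((a : ℝ) + c + a' + c') / 2) / (((a : ℝ) + c + a' + c') / 2) ^ 7) =
        (fun n n' : ℕ => (if n = n' then (1 : ℝ) else 0) * (315 / (((n : ℝ) + n') / 2))) (a + c') (a' + c) := by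
      intro a _ c _ a' _ c' _
      by_cases hc : a + c' = a' + c
      · have h3 : (a : ℤ) - c - ((a' : ℤ) - c') = 0 := by omega
        have h4 : (a : ℝ) + c' - c - a' = 0 := by
          have : ((a + c' : ℕ) : ℝ) = ((a' + c : ℕ) : ℝ) := by rw [hc]
          push_cast at this
          linarith
        simp only [if_pos hc, if_pos h3, h4]
        have h5 : Er (0 / 2) (((a : ℝ) - c') / 2) (((c : ℝ) - a') / 2) (((a : ℝ) + c + a' + c') / 2) = 0 := by
          unfold Er
          ring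
        rw [h5, zero_div, add_zero]
        push_cast
        congr 2
        ring
      · have h3 : ¬ ((a : ℤ) - c - ((a' : ℤ) - c') = 0) := by omega
        simp only [if_neg hc, if_neg h3, zero_mul]
    rw [sum_congr rfl fun a ha => sum_congr rfl fun c hc => sum_congr rfl fun a' ha' =>
      sum_congr rfl fun c' hc' => h2 a ha c hc a' ha' c' hc']
    rw [quad_group S L hL (fun n n' : ℕ => (if n = n' then (1 : ℝ) else 0) * (315 / (((n : ℝ) + n') / 2))), mul_sum]
    apply sum_congr rfl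
    intro n hn
    rw [sum_eq_single n]
    · rw [if_pos rfl, one_mul]
      by_cases hn0 : (n : ℝ) = 0
      · rw [hn0]
        simp
      · field_simp
        ring
    · intro n' _ hne
      rw [if_neg (Ne.symm hne), zero_mul, mul_zero]
    · intro hn'
      exact absurd hn hn'
  -- the part with the window weights
  have h2 : ∑ n ∈ range L, ∑ n' ∈ range L, rS S n * rS S n' * (V h ((n : ℤ) - n') *
      (315 / (((n : ℝ) + n') / 2) - 7082 * (|(n : ℝ) - n'| / 2) / (((n : ℝ) + n') / 2) ^ 2)) ≤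
      ∑ a ∈ S, ∑ c ∈ S, ∑ a' ∈ S, ∑ c' ∈ S, V h ((a : ℤ) - c - ((a' : ℤ) - c')) * Kf a c a' c' := by
    rw [sym_sum S hS1 (V h), ← quad_group S L hL (fun n n' => V h ((n : ℤ) - n') *
      (315 / (((n : ℝ) + n') / 2) - 7082 * (|(n : ℝ) - n'| / 2) / (((n : ℝ) + n') / 2) ^ 2))]
    apply sum_le_sum
    intro a ha
    apply sum_le_sum
    intro c hc
    apply sum_le_sum
    intro a' ha'
    apply sum_le_sum
    intro c' hc'
    have ha1 : (1 : ℝ) ≤ a := by exact_mod_cast hS1 _ ha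
    have hc1 : (1 : ℝ) ≤ c := by exact_mod_cast hS1 _ hc
    have ha1' : (1 : ℝ) ≤ a' := by exact_mod_cast hS1 _ ha'
    have hc1' : (1 : ℝ) ≤ c' := by exact_mod_cast hS1 _ hc'
    have e1 : ((a + c' : ℕ) : ℤ) - ((a' + c : ℕ) : ℤ) = (a : ℤ) - c - ((a' : ℤ) - c') := by push_cast; ring
    have e2 : (((a + c' : ℕ) : ℝ) + ((a' + c : ℕ) : ℝ)) / 2 = ((a : ℝ) + c + a' + c') / 2 := by push_cast; ring
    have e3 : ((a + c' : ℕ) : ℝ) - ((a' + c : ℕ) : ℝ) = (a : ℝ) + c' - c - a' := by push_cast; ring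
    rw [e1, e2, e3]
    apply mul_le_mul_of_nonneg_left _ (V_nonneg h _)
    set M := ((a : ℝ) + c + a' + c') / 2 with hM
    have hM0 : 0 < M := by rw [hM]; linarith
    have hE := Er_bound (((a : ℝ) + c' - c - a') / 2) (((a : ℝ) - c') / 2) (((c : ℝ) - a') / 2) M hM0
      (by rw [abs_le]; constructor <;> linarith) (by rw [abs_le]; constructor <;> linarith)
      (by rw [abs_le]; constructor <;> linarith)
    have hE2 := (abs_le.1 hE).1
    have e4 : |((a : ℝ) + c' - c - a') / 2| = |(a : ℝ) + c' - c - a'| / 2 := by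
      rw [abs_div, abs_of_pos (by norm_num : (0 : ℝ) < 2)]
    rw [e4] at hE2
    have h5 : -(7082 * (|(a : ℝ) + c' - c - a'| / 2) / M ^ 2) ≤
        Er (((a : ℝ) + c' - c - a') / 2) (((a : ℝ) - c') / 2) (((c : ℝ) - a') / 2) M / M ^ 7 := by
      rw [le_div_iff₀ (by positivity)]
      calc -(7082 * (|(a : ℝ) + c' - c - a'| / 2) / M ^ 2) * M ^ 7
          = -(7082 * (|(a : ℝ) + c' - c - a'| / 2) * M ^ 5) := by
            field_simp
        _ ≤ _ := hE2
    linarith
  -- the main term from below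
  have h3 : ∑ s ∈ Icc 1 N, (∑ j ∈ range h, rS S (s + j)) ^ 2 / ((s : ℝ) + h) ≤
      ∑ n ∈ range L, ∑ n' ∈ range L, V h ((n : ℤ) - n') * (rS S n * rS S n' / (((n : ℝ) + n') / 2)) := by
    refine le_trans ?_ (window_le (fun n n' => rS S n * rS S n' / (((n : ℝ) + n') / 2)) ?_ L ?_ (Icc 1 N) h)
    · apply sum_le_sum
      intro s hs
      rw [mem_Icc] at hs
      rw [pow_two, sum_mul_sum, sum_div]
      apply sum_le_sum
      intro j hj
      rw [sum_div]
      apply sum_le_sum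
      intro j' hj'
      rw [mem_range] at hj hj'
      apply div_le_div_of_nonneg_left (mul_nonneg (rS_nonneg _ _) (rS_nonneg _ _))
      · have : (1 : ℝ) ≤ s := by exact_mod_cast hs.1
        push_cast
        positivity
      · have h6 : ((j : ℝ)) ≤ h := by exact_mod_cast hj.le
        have h7 : ((j' : ℝ)) ≤ h := by exact_mod_cast hj'.le
        push_cast
        linarith
    · intro n n'
      have := rS_nonneg S n
      have := rS_nonneg S n'
      positivity
    · intro n n' hn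
      rcases hn with hn | hn
      · simp only [rS_zero_of_large S N hS n hn, zero_mul, zero_div]
      · simp only [rS_zero_of_large S N hS n' hn, mul_zero, zero_div]
  -- the error
  have h4 : ∑ n ∈ range L, ∑ n' ∈ range L, rS S n * rS S n' * (V h ((n : ℤ) - n') *
      (7082 * (|(n : ℝ) - n'| / 2) / (((n : ℝ) + n') / 2) ^ 2)) ≤ 28328 * (h : ℝ) ^ 3 * C0 ^ 2 := by
    have h5 : ∀ n ∈ range L, ∑ n' ∈ range L, rS S n * rS S n' * (V h ((n : ℤ) - n') *
        (7082 * (|(n : ℝ) - n'| / 2) / (((n : ℝ) + n') / 2) ^ 2)) ≤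
        14164 * (h : ℝ) ^ 3 * C0 ^ 2 * (1 / (n : ℝ) ^ 2) := by
      intro n _
      rcases Nat.eq_zero_or_pos n with hn0 | hn0
      · subst hn0
        rw [rS_zero_zero S N hS]
        simp
      · have hnR : (1 : ℝ) ≤ n := by exact_mod_cast hn0
        have h6 : ∀ n' ∈ range L, rS S n * rS S n' * (V h ((n : ℤ) - n') *
            (7082 * (|(n : ℝ) - n'| / 2) / (((n : ℝ) + n') / 2) ^ 2)) ≤
            C0 ^ 2 * (14164 * h / (n : ℝ) ^ 2) * V h ((n : ℤ) - n') := by
          intro n' _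
          have h7 : rS S n * rS S n' ≤ C0 ^ 2 := by
            rw [pow_two]
            exact mul_le_mul (hr n) (hr n') (rS_nonneg _ _) hC0
          have h8 : V h ((n : ℤ) - n') * (7082 * (|(n : ℝ) - n'| / 2) / (((n : ℝ) + n') / 2) ^ 2) ≤
              V h ((n : ℤ) - n') * (14164 * h / (n : ℝ) ^ 2) := by
            by_cases hV : (h : ℤ) ≤ |(n : ℤ) - n'|
            · rw [V_eq_zero h _ hV, zero_mul, zero_mul]
            · rw [not_le] at hV
              apply mul_le_mul_of_nonneg_left _ (V_nonneg _ _)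
              have h9 : |(n : ℝ) - n'| ≤ h := by
                have : ((|(n : ℤ) - n'| : ℤ) : ℝ) ≤ ((h : ℤ) : ℝ) := by exact_mod_cast hV.le
                push_cast at this
                exact this
              have h10 : (0 : ℝ) ≤ n' := Nat.cast_nonneg _
              rw [div_le_div_iff₀ (by positivity) (by positivity)]
              have h11 : (n : ℝ) ^ 2 ≤ ((n : ℝ) + n') ^ 2 := by gcongr; linarith
              have h12 : |(n : ℝ) - n'| * (n : ℝ) ^ 2 ≤ h * ((n : ℝ) + n') ^ 2 :=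
                mul_le_mul h9 h11 (by positivity) (by positivity)
              nlinarith
          have h13 : 0 ≤ V h ((n : ℤ) - n') * (7082 * (|(n : ℝ) - n'| / 2) / (((n : ℝ) + n') / 2) ^ 2) :=
            mul_nonneg (V_nonneg _ _) (by positivity)
          calc _ ≤ C0 ^ 2 * (V h ((n : ℤ) - n') *
                (7082 * (|(n : ℝ) - n'| / 2) / (((n : ℝ) + n') / 2) ^ 2)) :=
                mul_le_mul_of_nonneg_right h7 h13
            _ ≤ C0 ^ 2 * (V h ((n : ℤ) - n') * (14164 * h / (n : ℝ) ^ 2)) :=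
                mul_le_mul_of_nonneg_left h8 (by positivity)
            _ = _ := by ring
        refine (sum_le_sum h6).trans ?_
        rw [← mul_sum]
        have h14 : ∑ n' ∈ range L, V h ((n : ℤ) - n') ≤ (h : ℝ) ^ 2 := by
          have h15 : ∑ n' ∈ range L, V h ((n : ℤ) - n') =
              ∑ δ ∈ (range L).image (fun n' : ℕ => (n : ℤ) - n'), V h δ := by
            rw [sum_image]
            intro x _ y _ hxy
            simp only at hxy
            omega
          rw [h15]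
          exact V_sum h _
        calc C0 ^ 2 * (14164 * h / (n : ℝ) ^ 2) * ∑ n' ∈ range L, V h ((n : ℤ) - n')
            ≤ C0 ^ 2 * (14164 * h / (n : ℝ) ^ 2) * (h : ℝ) ^ 2 :=
              mul_le_mul_of_nonneg_left h14 (by positivity)
          _ = _ := by ring
    refine (sum_le_sum h5).trans ?_
    rw [← mul_sum]
    have h6 := sum_inv_sq L
    have h7 : 0 ≤ 14164 * (h : ℝ) ^ 3 * C0 ^ 2 := by positivity
    nlinarith
  have h5 : ∑ n ∈ range L, ∑ n' ∈ range L, rS S n * rS S n' * (V h ((n : ℤ) - n') *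
      (315 / (((n : ℝ) + n') / 2) - 7082 * (|(n : ℝ) - n'| / 2) / (((n : ℝ) + n') / 2) ^ 2)) =
      315 * ∑ n ∈ range L, ∑ n' ∈ range L, V h ((n : ℤ) - n') * (rS S n * rS S n' / (((n : ℝ) + n') / 2)) -
      ∑ n ∈ range L, ∑ n' ∈ range L, rS S n * rS S n' * (V h ((n : ℤ) - n') *
      (7082 * (|(n : ℝ) - n'| / 2) / (((n : ℝ) + n') / 2) ^ 2)) := by
    simp only [mul_sum, ← sum_sub_distrib]
    apply sum_congr rfl
    intro n _
    apply sum_congr rfl
    intro n' _
    ring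
  rw [h5] at h2
  rw [h1] at h0
  have h6 : 315 * ∑ s ∈ Icc 1 N, (∑ j ∈ range h, rS S (s + j)) ^ 2 / ((s : ℝ) + h) ≤
      (h : ℝ) ^ 2 * ((1 + θ) * (315 * ∑ n ∈ range L, rS S n ^ 2 / n) - (1 - (1 + 1 / θ) / h) * I0 S) +
        28328 * (h : ℝ) ^ 3 * C0 ^ 2 := by
    unfold I0
    linarith
  have h7 : ∑ s ∈ Icc 1 N, ((∑ j ∈ range h, rS S (s + j)) / h) ^ 2 / ((s : ℝ) + h) =
      (∑ s ∈ Icc 1 N, (∑ j ∈ range h, rS S (s + j)) ^ 2 / ((s : ℝ) + h)) / (h : ℝ) ^ 2 := by
    rw [sum_div]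
    apply sum_congr rfl
    intro s _
    rw [div_pow, div_div, div_div, mul_comm]
  rw [h7, ← mul_div_assoc, div_le_iff₀ (by positivity)]
  refine h6.trans (le_of_eq ?_)
  ring

end Pool.Agent.Helper80.ET
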