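import Mathlib

/-!
# A second moment inequality for functions on the integers
-/

set_option autoImplicit false

namespace Pool.Agent.Helper80.ET

open Finset

/-- window weights: the number of pairs `(j, j')` in `[0, h)` with `j - j' = δ` -/
noncomputable def V (h : ℕ) (δ : ℤ) : ℝ :=
  (((range h ×ˢ range h).filter (fun q : ℕ × ℕ => (q.1 : ℤ) - q.2 = δ)).card : ℝ)

theorem V_nonneg (h : ℕ) (δ : ℤ) : 0 ≤ V h δ := Nat.cast_nonneg _

theorem V_le (h : ℕ) (δ : ℤ) : V h δ ≤ h := by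
  unfold V
  have h1 : ((range h ×ˢ range h).filter (fun q : ℕ × ℕ => (q.1 : ℤ) - q.2 = δ)).card ≤ (range h).card := by
    apply card_le_card_of_injOn (fun q => q.1)
    · intro q hq
      simp only [coe_filter, mem_product, mem_range, Set.mem_setOf_eq] at hq
      simpa using hq.1.1
    · intro q hq q' hq' he
      simp only [coe_filter, mem_product, mem_range, Set.mem_setOf_eq] at hq hq'
      ext
      · exact he
      · have he' : q.1 = q'.1 := he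
        have h3 := hq.2
        have h4 := hq'.2
        rw [he'] at h3
        omega
  rw [card_range] at h1
  exact_mod_cast h1

theorem V_neg (h : ℕ) (δ : ℤ) : V h (-δ) = V h δ := by
  unfold V
  congr 1
  apply card_bij (fun q _ => (q.2, q.1))
  · intro q hq
    simp only [mem_filter, mem_product, mem_range] at hq ⊢
    refine ⟨⟨hq.1.2, hq.1.1⟩, ?_⟩
    have := hq.2
    omega
  · intro q _ q' _ he
    simp only [Prod.mk.injEq] at he
    ext
    · exact he.2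
    · exact he.1
  · intro q hq
    simp only [mem_filter, mem_product, mem_range] at hq
    refine ⟨(q.2, q.1), ?_, rfl⟩
    simp only [mem_filter, mem_product, mem_range]
    refine ⟨⟨hq.1.2, hq.1.1⟩, ?_⟩
    have := hq.2
    omega

theorem V_sum (h : ℕ) (F : Finset ℤ) : ∑ δ ∈ F, V h δ ≤ (h : ℝ) ^ 2 := by
  unfold V
  have h1 : ∑ δ ∈ F, ((range h ×ˢ range h).filter (fun q : ℕ × ℕ => (q.1 : ℤ) - q.2 = δ)).card ≤
      (range h ×ˢ range h).card := by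
    rw [← card_biUnion]
    · apply card_le_card
      intro q hq
      rw [mem_biUnion] at hq
      obtain ⟨δ, _, hq⟩ := hq
      exact (mem_filter.1 hq).1
    · intro δ _ δ' _ hne
      apply disjoint_left.2
      intro q hq hq'
      exact hne ((mem_filter.1 hq).2.symm.trans (mem_filter.1 hq').2)
  rw [card_product, card_range] at h1
  rw [pow_two]
  exact_mod_cast h1

theorem V_eq_zero (h : ℕ) (δ : ℤ) (hδ : (h : ℤ) ≤ |δ|) : V h δ = 0 := by
  unfold V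
  rw [Nat.cast_eq_zero, card_eq_zero, filter_eq_empty_iff]
  intro q hq he
  rw [mem_product, mem_range, mem_range] at hq
  rw [← he] at hδ
  rcases abs_cases ((q.1 : ℤ) - q.2) with ⟨h1, _⟩ | ⟨h1, _⟩ <;> rw [h1] at hδ <;> omega

/-- the inequality for a function on the integers -/
theorem quad_le (K : Finset ℤ) (h0 : (0 : ℤ) ∈ K) (T : ℤ → ℝ) (v : ℤ → ℝ) (h θ : ℝ) (hh : 0 < h)
    (hθ : 0 < θ) (v0 : ∀ δ, 0 ≤ v δ) (vh : ∀ δ, v δ ≤ h) (ve : ∀ δ, v (-δ) = v δ)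
    (vs : ∀ F : Finset ℤ, ∑ δ ∈ F, v δ ≤ h ^ 2) :
    ∑ κ ∈ K, ∑ κ' ∈ K, v (κ - κ') * (T κ * T κ') ≤
      h ^ 2 * ((1 + θ) * ∑ κ ∈ K, T κ ^ 2 - (1 - (1 + 1 / θ) / h) * T 0 ^ 2) := by
  set K' := K.erase 0 with hK'
  have hsplit : ∀ F : ℤ → ℝ, ∑ κ ∈ K, F κ = F 0 + ∑ κ ∈ K', F κ := fun F => (add_sum_erase K F h0).symm
  rw [hsplit (fun κ => ∑ κ' ∈ K, v (κ - κ') * (T κ * T κ')), hsplit (fun κ => T κ ^ 2)]
  have h1 : ∑ κ ∈ K', ∑ κ' ∈ K, v (κ - κ') * (T κ * T κ') =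
      ∑ κ ∈ K', v κ * (T κ * T 0) + ∑ κ ∈ K', ∑ κ' ∈ K', v (κ - κ') * (T κ * T κ') := by
    rw [← sum_add_distrib]
    apply sum_congr rfl
    intro κ _
    rw [hsplit (fun κ' => v (κ - κ') * (T κ * T κ')), sub_zero]
  have h2 : ∑ κ' ∈ K, v (0 - κ') * (T 0 * T κ') = v 0 * (T 0 * T 0) + ∑ κ ∈ K', v κ * (T κ * T 0) := by
    rw [hsplit (fun κ' => v (0 - κ') * (T 0 * T κ')), sub_zero]
    congr 1
    apply sum_congr rfl
    intro κ _
    rw [zero_sub, ve]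
    ring
  rw [h1, h2]
  -- the cross terms
  have hvK : ∑ κ ∈ K', v κ ≤ h ^ 2 := vs K'
  have h3 : ∑ κ ∈ K', v κ * (T κ * T 0) ≤ (θ * h ^ 2 * ∑ κ ∈ K', T κ ^ 2 + h / θ * T 0 ^ 2) / 2 := by
    have h4 : ∀ κ ∈ K', v κ * (T κ * T 0) ≤ (θ * h ^ 2 * T κ ^ 2) / 2 + v κ * (T 0 ^ 2 / (θ * h)) / 2 := by
      intro κ _
      have hθh : 0 < θ * h := mul_pos hθ hh
      have h5 : T κ * T 0 ≤ (θ * h * T κ ^ 2 + T 0 ^ 2 / (θ * h)) / 2 := by
        have h6 : 0 ≤ (θ * h * T κ - T 0) ^ 2 / (θ * h) := by positivity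
        have h7 : (θ * h * T κ - T 0) ^ 2 / (θ * h) = θ * h * T κ ^ 2 - 2 * (T κ * T 0) + T 0 ^ 2 / (θ * h) := by
          field_simp
          ring
        rw [h7] at h6
        linarith
      have h8 : v κ * (T κ * T 0) ≤ v κ * ((θ * h * T κ ^ 2 + T 0 ^ 2 / (θ * h)) / 2) :=
        mul_le_mul_of_nonneg_left h5 (v0 κ)
      have h9 : v κ * (θ * h * T κ ^ 2) ≤ h * (θ * h * T κ ^ 2) :=
        mul_le_mul_of_nonneg_right (vh κ) (by positivity)
      have h10 : h * (θ * h * T κ ^ 2) = θ * h ^ 2 * T κ ^ 2 := by ring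
      linarith
    have h11 := sum_le_sum h4
    rw [sum_add_distrib, ← sum_div, ← sum_div, ← mul_sum, ← sum_mul] at h11
    have h12 : (∑ κ ∈ K', v κ) * (T 0 ^ 2 / (θ * h)) ≤ h ^ 2 * (T 0 ^ 2 / (θ * h)) :=
      mul_le_mul_of_nonneg_right hvK (by positivity)
    have h13 : h ^ 2 * (T 0 ^ 2 / (θ * h)) = h / θ * T 0 ^ 2 := by
      field_simp
    linarith
  -- the other terms
  have h4 : ∑ κ ∈ K', ∑ κ' ∈ K', v (κ - κ') * (T κ * T κ') ≤ h ^ 2 * ∑ κ ∈ K', T κ ^ 2 := by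
    have hs : ∀ κ : ℤ, ∑ κ' ∈ K', v (κ - κ') ≤ h ^ 2 := by
      intro κ
      have h5 : ∑ κ' ∈ K', v (κ - κ') = ∑ δ ∈ K'.image (fun κ' => κ - κ'), v δ := by
        rw [sum_image]
        intro x _ y _ hxy
        simp only at hxy
        omega
      rw [h5]
      exact vs _
    have h6 : ∀ κ ∈ K', ∀ κ' ∈ K', v (κ - κ') * (T κ * T κ') ≤
        v (κ - κ') * T κ ^ 2 / 2 + v (κ' - κ) * T κ' ^ 2 / 2 := by
      intro κ _ κ' _
      have h7 : v (κ' - κ) = v (κ - κ') := by rw [← ve, neg_sub]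
      rw [h7]
      have h8 : 0 ≤ v (κ - κ') * (T κ - T κ') ^ 2 := mul_nonneg (v0 _) (sq_nonneg _)
      nlinarith
    have h9 : ∑ κ ∈ K', ∑ κ' ∈ K', v (κ - κ') * (T κ * T κ') ≤
        ∑ κ ∈ K', ∑ κ' ∈ K', (v (κ - κ') * T κ ^ 2 / 2 + v (κ' - κ) * T κ' ^ 2 / 2) :=
      sum_le_sum fun κ hκ => sum_le_sum fun κ' hκ' => h6 κ hκ κ' hκ'
    have h10 : ∑ κ ∈ K', ∑ κ' ∈ K', (v (κ - κ') * T κ ^ 2 / 2 + v (κ' - κ) * T κ' ^ 2 / 2) =
        ∑ κ ∈ K', ∑ κ' ∈ K', v (κ - κ') * T κ ^ 2 := by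
      have h11 : ∑ κ ∈ K', ∑ κ' ∈ K', v (κ' - κ) * T κ' ^ 2 / 2 =
          ∑ κ ∈ K', ∑ κ' ∈ K', v (κ - κ') * T κ ^ 2 / 2 := sum_comm
      simp only [sum_add_distrib]
      rw [h11, ← sum_add_distrib]
      apply sum_congr rfl
      intro κ _
      rw [← sum_add_distrib]
      apply sum_congr rfl
      intro κ' _
      ring
    have h12 : ∑ κ ∈ K', ∑ κ' ∈ K', v (κ - κ') * T κ ^ 2 ≤ ∑ κ ∈ K', h ^ 2 * T κ ^ 2 := by
      apply sum_le_sum
      intro κ _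
      rw [← sum_mul]
      exact mul_le_mul_of_nonneg_right (hs κ) (sq_nonneg _)
    rw [mul_sum]
    linarith
  have h5 : v 0 * (T 0 * T 0) ≤ h * T 0 ^ 2 := by
    have := mul_le_mul_of_nonneg_right (vh 0) (mul_self_nonneg (T 0))
    nlinarith
  have h6 : h ^ 2 * ((1 + θ) * (T 0 ^ 2 + ∑ κ ∈ K', T κ ^ 2) - (1 - (1 + 1 / θ) / h) * T 0 ^ 2) =
      h ^ 2 * (θ * T 0 ^ 2) + (h * T 0 ^ 2 + h / θ * T 0 ^ 2) +
        (θ * h ^ 2 * ∑ κ ∈ K', T κ ^ 2 + h ^ 2 * ∑ κ ∈ K', T κ ^ 2) := by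
    field_simp
    ring
  rw [h6]
  have h7 : 0 ≤ h ^ 2 * (θ * T 0 ^ 2) := by positivity
  linarith

/-- grouping by the values of `key` -/
theorem sum_key {ι : Type*} (P : Finset ι) (key : ι → ℤ) (K : Finset ℤ) (hK : ∀ p ∈ P, key p ∈ K)
    (τ : ι → ℝ) (F : ℤ → ℝ) :
    ∑ κ ∈ K, F κ * (∑ p ∈ P, if key p = κ then τ p else 0) = ∑ p ∈ P, F (key p) * τ p := by
  simp only [mul_sum]
  rw [sum_comm]
  apply sum_congr rfl
  intro p hp
  rw [sum_eq_single (key p)]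
  · rw [if_pos rfl]
  · intro κ _ hne
    rw [if_neg (Ne.symm hne), mul_zero]
  · intro hn
    exact absurd (hK p hp) hn

/-- the inequality for a family of numbers with integer keys -/
theorem pair_le {ι : Type*} (P : Finset ι) (key : ι → ℤ) (τ : ι → ℝ) (h : ℕ) (hh : 0 < h) (θ : ℝ)
    (hθ : 0 < θ) :
    ∑ p ∈ P, ∑ q ∈ P, V h (key p - key q) * (τ p * τ q) ≤
      (h : ℝ) ^ 2 * ((1 + θ) * ∑ p ∈ P, ∑ q ∈ P, (if key p = key q then τ p * τ q else 0) -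
        (1 - (1 + 1 / θ) / h) * ∑ p ∈ P, ∑ q ∈ P, (if key p = 0 ∧ key q = 0 then τ p * τ q else 0)) := by
  classical
  set K : Finset ℤ := insert 0 (P.image key) with hK
  have hKm : ∀ p ∈ P, key p ∈ K := fun p hp => mem_insert_of_mem (mem_image_of_mem key hp)
  set T : ℤ → ℝ := fun κ => ∑ p ∈ P, if key p = κ then τ p else 0 with hT
  have hq := quad_le K (mem_insert_self _ _) T (V h) h θ (by exact_mod_cast hh) hθ (V_nonneg h) (V_le h)
    (V_neg h) (V_sum h)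
  have h1 : ∑ κ ∈ K, ∑ κ' ∈ K, V h (κ - κ') * (T κ * T κ') =
      ∑ p ∈ P, ∑ q ∈ P, V h (key p - key q) * (τ p * τ q) := by
    have h2 : ∀ κ ∈ K, ∑ κ' ∈ K, V h (κ - κ') * (T κ * T κ') =
        (∑ q ∈ P, V h (κ - key q) * τ q) * T κ := by
      intro κ _
      rw [← sum_key P key K hKm τ (fun κ' => V h (κ - κ')), sum_mul]
      apply sum_congr rfl
      intro κ' _
      simp only [hT]
      ring
    rw [sum_congr rfl h2, sum_key P key K hKm τ (fun κ => ∑ q ∈ P, V h (κ - key q) * τ q)]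
    apply sum_congr rfl
    intro p _
    rw [sum_mul]
    apply sum_congr rfl
    intro q _
    ring
  have h3 : ∑ κ ∈ K, T κ ^ 2 = ∑ p ∈ P, ∑ q ∈ P, (if key p = key q then τ p * τ q else 0) := by
    have h4 : ∀ κ ∈ K, T κ ^ 2 = T κ * (∑ p ∈ P, if key p = κ then τ p else 0) := by
      intro κ _
      rw [pow_two]
    rw [sum_congr rfl h4, sum_key P key K hKm τ T]
    apply sum_congr rfl
    intro p _
    simp only [hT]
    rw [sum_mul]
    apply sum_congr rfl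
    intro q _
    by_cases hpq : key p = key q
    · rw [if_pos hpq, if_pos hpq.symm]
      ring
    · rw [if_neg hpq, if_neg (Ne.symm hpq), zero_mul]
  have h5 : T 0 ^ 2 = ∑ p ∈ P, ∑ q ∈ P, (if key p = 0 ∧ key q = 0 then τ p * τ q else 0) := by
    simp only [hT]
    rw [pow_two, sum_mul_sum]
    apply sum_congr rfl
    intro p _
    apply sum_congr rfl
    intro q _
    by_cases hp : key p = 0 <;> by_cases hq : key q = 0 <;> simp [hp, hq]
  rw [h1, h3, h5] at hq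
  exact hq

end Pool.Agent.Helper80.ET
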