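import Pool.Agent.Helper80.ET.G1U

/-!
# Elementary sums for the final assembly
-/

set_option autoImplicit false

namespace Pool.Agent.Helper80.ET

open Finset

theorem Icc_sum_inv_sq (N : ℕ) : ∑ n ∈ Icc 1 N, 1 / (n : ℝ) ^ 2 ≤ 2 := by
  refine le_trans ?_ (sum_inv_sq (N + 1))
  apply sum_le_sum_of_subset_of_nonneg
  · intro n hn
    rw [mem_Icc] at hn
    rw [mem_range]
    omega
  · intro n _ _
    positivity

theorem range_sum_eq (N : ℕ) (F : ℕ → ℝ) (hF : F 0 = 0) :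
    ∑ n ∈ range (2 * N + 1), F n = ∑ n ∈ Icc 1 N, F n + ∑ n ∈ Icc (N + 1) (2 * N), F n := by
  have h1 : ∑ n ∈ range (2 * N + 1), F n = ∑ n ∈ Icc 1 (2 * N), F n := by
    symm
    apply sum_subset
    · intro n hn
      rw [mem_Icc] at hn
      rw [mem_range]
      omega
    · intro n hn hn'
      rw [mem_range] at hn
      rw [mem_Icc] at hn'
      have : n = 0 := by omega
      rw [this, hF]
  have h2 : Icc 1 (2 * N) = Icc 1 N ∪ Icc (N + 1) (2 * N) := by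
    ext n
    simp only [mem_union, mem_Icc]
    omega
  have h3 : Disjoint (Icc 1 N) (Icc (N + 1) (2 * N)) := by
    rw [disjoint_left]
    intro n hn hn'
    rw [mem_Icc] at hn hn'
    omega
  rw [h1, h2, sum_union h3]

/-- `∑_{n ≤ N} r(n)/n` -/
noncomputable def T1 (S : Finset ℕ) (N : ℕ) : ℝ := ∑ n ∈ Icc 1 N, rS S n / n

/-- the harmonic sum -/
noncomputable def Hs (N : ℕ) : ℝ := ∑ n ∈ Icc 1 N, 1 / (n : ℝ)

/-- the shifted harmonic sum -/
noncomputable def Ws (h N : ℕ) : ℝ := ∑ s ∈ Icc 1 N, 1 / ((s : ℝ) + h)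

theorem Hs_two (N : ℕ) (hN : 1 ≤ N) : Hs (2 * N) ≤ Hs N + 1 := by
  have h1 := range_sum_eq N (fun n => 1 / (n : ℝ)) (by simp)
  have h2 := range_sum_eq N (fun n => 1 / (n : ℝ)) (by simp)
  have h3 : ∑ n ∈ range (2 * N + 1), 1 / (n : ℝ) = Hs (2 * N) := by
    unfold Hs
    symm
    apply sum_subset
    · intro n hn
      rw [mem_Icc] at hn
      rw [mem_range]
      omega
    · intro n hn hn'
      rw [mem_range] at hn
      rw [mem_Icc] at hn'
      have : n = 0 := by omega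
      rw [this]
      simp
  have hNR : (1 : ℝ) ≤ N := by exact_mod_cast hN
  have h4 : ∑ n ∈ Icc (N + 1) (2 * N), 1 / (n : ℝ) ≤ 1 := by
    have h5 : ∀ n ∈ Icc (N + 1) (2 * N), 1 / (n : ℝ) ≤ 1 / N := by
      intro n hn
      rw [mem_Icc] at hn
      apply one_div_le_one_div_of_le (by linarith)
      exact_mod_cast (by omega : N ≤ n)
    refine (sum_le_sum h5).trans ?_
    rw [sum_const, Nat.card_Icc, nsmul_eq_mul]
    have e : 2 * N + 1 - (N + 1) = N := by omega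
    rw [e]
    apply le_of_eq
    field_simp
  rw [← h3, h1]
  unfold Hs
  linarith

theorem Hs_le (h N : ℕ) : Hs N ≤ Ws h N + 2 * h := by
  unfold Hs Ws
  have h1 : ∀ s ∈ Icc 1 N, 1 / (s : ℝ) ≤ 1 / ((s : ℝ) + h) + h * (1 / (s : ℝ) ^ 2) := by
    intro s hs
    rw [mem_Icc] at hs
    have hs1 : (1 : ℝ) ≤ s := by exact_mod_cast hs.1
    have hh : (0 : ℝ) ≤ h := Nat.cast_nonneg _
    have e : 1 / (s : ℝ) - 1 / ((s : ℝ) + h) = h * (1 / (s * (s + h))) := by
      field_simp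
      ring
    have h2 : 1 / ((s : ℝ) * (s + h)) ≤ 1 / (s : ℝ) ^ 2 := by
      apply one_div_le_one_div_of_le (by positivity)
      nlinarith
    have h3 := mul_le_mul_of_nonneg_left h2 hh
    linarith
  refine (sum_le_sum h1).trans ?_
  rw [sum_add_distrib, ← mul_sum]
  have h2 := Icc_sum_inv_sq N
  have hh : (0 : ℝ) ≤ h := Nat.cast_nonneg _
  have h3 := mul_le_mul_of_nonneg_left h2 hh
  linarith

theorem Ws_le (h N : ℕ) : Ws h N ≤ Hs N := by
  unfold Hs Ws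
  apply sum_le_sum
  intro s hs
  rw [mem_Icc] at hs
  have hs1 : (1 : ℝ) ≤ s := by exact_mod_cast hs.1
  have hh : (0 : ℝ) ≤ h := Nat.cast_nonneg _
  apply one_div_le_one_div_of_le (by linarith)
  linarith

theorem T2_crude (S : Finset ℕ) (N : ℕ) (C0 : ℝ) (hr : ∀ n, rS S n ≤ C0) :
    ∑ n ∈ range (2 * N + 1), rS S n ^ 2 / n ≤ C0 ^ 2 * Hs (2 * N) := by
  have hC0 : 0 ≤ C0 := (rS_nonneg S 0).trans (hr 0)
  have h1 : ∑ n ∈ range (2 * N + 1), rS S n ^ 2 / n = ∑ n ∈ Icc 1 (2 * N), rS S n ^ 2 / n := by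
    symm
    apply sum_subset
    · intro n hn
      rw [mem_Icc] at hn
      rw [mem_range]
      omega
    · intro n hn hn'
      rw [mem_range] at hn
      rw [mem_Icc] at hn'
      have : n = 0 := by omega
      rw [this]
      simp
  rw [h1]
  unfold Hs
  rw [mul_sum]
  apply sum_le_sum
  intro n _
  rw [mul_one_div]
  apply div_le_div_of_nonneg_right _ (Nat.cast_nonneg _)
  exact pow_le_pow_left₀ (rS_nonneg _ _) (hr n) 2

/-- the reciprocal sum -/
noncomputable def Xs (S : Finset ℕ) : ℝ := ∑ a ∈ S, 1 / (a : ℝ)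

theorem Xs_sq (S : Finset ℕ) (N : ℕ) (hS : ∀ a ∈ S, 1 ≤ a ∧ a ≤ N) (C0 : ℝ)
    (hr : ∀ n, rS S n ≤ C0) : Xs S ^ 2 ≤ C0 * Hs (2 * N) := by
  have hC0 : 0 ≤ C0 := (rS_nonneg S 0).trans (hr 0)
  have h1 : Xs S ^ 2 ≤ ∑ a ∈ S, ∑ b ∈ S, 1 / (((a + b : ℕ) : ℝ) - 1) := by
    unfold Xs
    rw [pow_two, sum_mul_sum]
    apply sum_le_sum
    intro a ha
    apply sum_le_sum
    intro b hb
    have ha1 : (1 : ℝ) ≤ a := by exact_mod_cast (hS a ha).1
    have hb1 : (1 : ℝ) ≤ b := by exact_mod_cast (hS b hb).1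
    rw [one_div_mul_one_div]
    push_cast
    apply one_div_le_one_div_of_le (by linarith)
    nlinarith
  have h2 := sum_rS S N hS (fun n => 1 / ((n : ℝ) - 1))
  rw [h2] at h1
  refine h1.trans ?_
  have h3 : ∑ n ∈ range (2 * N + 1), rS S n * (1 / ((n : ℝ) - 1)) =
      ∑ n ∈ Ico 2 (2 * N + 1), rS S n * (1 / ((n : ℝ) - 1)) := by
    symm
    apply sum_subset
    · intro n hn
      rw [mem_Ico] at hn
      rw [mem_range]
      omega
    · intro n hn hn'
      rw [mem_range] at hn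
      rw [mem_Ico] at hn'
      have : n = 0 ∨ n = 1 := by omega
      rcases this with h0 | h1
      · rw [h0, rS_zero_zero S N hS, zero_mul]
      · rw [h1]
        simp
  rw [h3, Finset.sum_Ico_eq_sum_range]
  unfold Hs
  rw [mul_sum]
  have h4 : ∀ k ∈ range (2 * N + 1 - 2), rS S (2 + k) * (1 / (((2 + k : ℕ) : ℝ) - 1)) ≤ C0 * (1 / ((k + 1 : ℕ) : ℝ)) := by
    intro k _
    have e : (((2 + k : ℕ) : ℝ) - 1) = ((k + 1 : ℕ) : ℝ) := by
      push_cast
      ring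
    rw [e]
    exact mul_le_mul_of_nonneg_right (hr _) (by positivity)
  refine (sum_le_sum h4).trans ?_
  have h5 : ∑ k ∈ range (2 * N + 1 - 2), C0 * (1 / ((k + 1 : ℕ) : ℝ)) =
      ∑ n ∈ (range (2 * N + 1 - 2)).image (fun k : ℕ => (k + 1 : ℕ)), C0 * (1 / (n : ℝ)) := by
    rw [sum_image]
    intro x _ y _ hxy
    simpa using hxy
  rw [h5]
  apply sum_le_sum_of_subset_of_nonneg
  · intro n hn
    rw [mem_image] at hn
    obtain ⟨k, hk, rfl⟩ := hn
    rw [mem_range] at hk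
    rw [mem_Icc]
    omega
  · intro n _ _
    positivity

theorem T2_le (S : Finset ℕ) (N : ℕ) (hN : 1 ≤ N) (hS : ∀ a ∈ S, 1 ≤ a ∧ a ≤ N) (C0 : ℝ)
    (hr : ∀ n, rS S n ≤ C0) (n0 : ℕ) (l K : ℝ) (hl : 0 ≤ l) (hK : l ≤ K)
    (hsq : ∀ n, n0 ≤ n → n ≤ N → rS S n ^ 2 ≤ 2 * (l + K) * rS S n - 4 * l * K +
      (if 2 ∣ n ∧ n / 2 ∈ S then 2 * K - 2 * l + 1 else 0)) :
    ∑ n ∈ range (2 * N + 1), rS S n ^ 2 / n ≤ 2 * (l + K) * T1 S N - 4 * l * K * Hs N +
      (2 * K - 2 * l + 1) / 2 * Xs S + ((C0 ^ 2 + 4 * l * K) * n0 + C0 ^ 2) := by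
  have hC0 : 0 ≤ C0 := (rS_nonneg S 0).trans (hr 0)
  have hNR : (1 : ℝ) ≤ N := by exact_mod_cast hN
  have hK0 : 0 ≤ K := hl.trans hK
  have h1 := range_sum_eq N (fun n => rS S n ^ 2 / n) (by simp)
  rw [h1]
  have h2 : ∑ n ∈ Icc (N + 1) (2 * N), rS S n ^ 2 / (n : ℝ) ≤ C0 ^ 2 := by
    have h5 : ∀ n ∈ Icc (N + 1) (2 * N), rS S n ^ 2 / (n : ℝ) ≤ C0 ^ 2 / N := by
      intro n hn
      rw [mem_Icc] at hn
      have : (N : ℝ) ≤ n := by exact_mod_cast (by omega : N ≤ n)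
      apply div_le_div₀ (by positivity) (pow_le_pow_left₀ (rS_nonneg _ _) (hr n) 2) (by linarith) this
    refine (sum_le_sum h5).trans ?_
    rw [sum_const, Nat.card_Icc, nsmul_eq_mul]
    have e : 2 * N + 1 - (N + 1) = N := by omega
    rw [e]
    apply le_of_eq
    field_simp
  have h3 : ∀ n ∈ Icc 1 N, rS S n ^ 2 / (n : ℝ) ≤ 2 * (l + K) * (rS S n / n) - 4 * l * K * (1 / n) +
      (if 2 ∣ n ∧ n / 2 ∈ S then (2 * K - 2 * l + 1) / n else 0) +
      (if n < n0 then C0 ^ 2 + 4 * l * K else 0) := by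
    intro n hn
    rw [mem_Icc] at hn
    have hn1 : (1 : ℝ) ≤ n := by exact_mod_cast hn.1
    by_cases hc : n < n0
    · rw [if_pos hc]
      have h4 : 0 ≤ (if 2 ∣ n ∧ n / 2 ∈ S then (2 * K - 2 * l + 1) / (n : ℝ) else 0) := by
        split_ifs
        · apply div_nonneg <;> linarith
        · exact le_rfl
      have h5 : rS S n ^ 2 / (n : ℝ) ≤ C0 ^ 2 := by
        rw [div_le_iff₀ (by linarith)]
        have := pow_le_pow_left₀ (rS_nonneg S n) (hr n) 2
        nlinarith [sq_nonneg C0]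
      have h6 : 0 ≤ 2 * (l + K) * (rS S n / n) := by
        have := rS_nonneg S n
        positivity
      have h7 : 4 * l * K * (1 / (n : ℝ)) ≤ 4 * l * K := by
        have : 1 / (n : ℝ) ≤ 1 := by
          rw [div_le_one (by linarith)]
          exact hn1
        have h8 : 0 ≤ 4 * l * K := by positivity
        nlinarith
      linarith
    · rw [if_neg hc]
      rw [not_lt] at hc
      have h4 := hsq n hc hn.2
      have h5 : (if 2 ∣ n ∧ n / 2 ∈ S then (2 * K - 2 * l + 1) / (n : ℝ) else 0) =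
          (if 2 ∣ n ∧ n / 2 ∈ S then (2 * K - 2 * l + 1) else 0) / (n : ℝ) := by
        split_ifs <;> simp
      rw [h5, div_le_iff₀ (by linarith)]
      have hn0 : (n : ℝ) ≠ 0 := by linarith
      have h6 : (2 * (l + K) * (rS S n / n) - 4 * l * K * (1 / n) +
          (if 2 ∣ n ∧ n / 2 ∈ S then (2 * K - 2 * l + 1) else 0) / (n : ℝ) + 0) * n =
          2 * (l + K) * rS S n - 4 * l * K +
          (if 2 ∣ n ∧ n / 2 ∈ S then 2 * K - 2 * l + 1 else 0) := by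
        field_simp
        ring
      rw [h6]
      exact h4
  have h4 := sum_le_sum h3
  rw [sum_add_distrib, sum_add_distrib, sum_sub_distrib, ← mul_sum, ← mul_sum] at h4
  have h5 : ∑ n ∈ Icc 1 N, (if 2 ∣ n ∧ n / 2 ∈ S then (2 * K - 2 * l + 1) / (n : ℝ) else 0) ≤
      (2 * K - 2 * l + 1) / 2 * Xs S := by
    rw [← sum_filter]
    unfold Xs
    rw [mul_sum]
    have h6 : ∀ n ∈ (Icc 1 N).filter (fun n => 2 ∣ n ∧ n / 2 ∈ S), (2 * K - 2 * l + 1) / (n : ℝ) =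
        (2 * K - 2 * l + 1) / 2 * (1 / ((n / 2 : ℕ) : ℝ)) := by
      intro n hn
      rw [mem_filter] at hn
      obtain ⟨m, hm⟩ := hn.2.1
      have e : n / 2 = m := by omega
      rw [e]
      have hm1 : (1 : ℝ) ≤ m := by
        rw [mem_Icc] at hn
        exact_mod_cast (by omega : 1 ≤ m)
      rw [hm]
      push_cast
      field_simp
    rw [sum_congr rfl h6]
    have h7 : ∑ n ∈ (Icc 1 N).filter (fun n => 2 ∣ n ∧ n / 2 ∈ S), (2 * K - 2 * l + 1) / 2 * (1 / ((n / 2 : ℕ) : ℝ)) =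
        ∑ a ∈ ((Icc 1 N).filter (fun n => 2 ∣ n ∧ n / 2 ∈ S)).image (fun n : ℕ => (n / 2 : ℕ)),
          (2 * K - 2 * l + 1) / 2 * (1 / (a : ℝ)) := by
      rw [sum_image]
      intro x hx y hy hxy
      simp only [coe_filter, mem_Icc, Set.mem_setOf_eq] at hx hy
      simp only at hxy
      have := hx.2.1
      have := hy.2.1
      omega
    rw [h7]
    apply sum_le_sum_of_subset_of_nonneg
    · intro a ha
      rw [mem_image] at ha
      obtain ⟨n, hn, rfl⟩ := ha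
      rw [mem_filter] at hn
      exact hn.2.2
    · intro a _ _
      apply mul_nonneg (by linarith) (by positivity)
  have h6 : ∑ n ∈ Icc 1 N, (if n < n0 then C0 ^ 2 + 4 * l * K else 0) ≤ (C0 ^ 2 + 4 * l * K) * n0 := by
    rw [← sum_filter, sum_const, nsmul_eq_mul]
    have h7 : ((Icc 1 N).filter (fun n => n < n0)).card ≤ n0 := by
      calc ((Icc 1 N).filter (fun n => n < n0)).card ≤ (range n0).card := by
            apply card_le_card
            intro n hn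
            rw [mem_filter] at hn
            rw [mem_range]
            exact hn.2
        _ = n0 := card_range n0
    have h8 : (((Icc 1 N).filter (fun n => n < n0)).card : ℝ) ≤ n0 := by exact_mod_cast h7
    have h9 : 0 ≤ C0 ^ 2 + 4 * l * K := by positivity
    nlinarith
  unfold T1 Hs
  linarith

theorem T1_le_j (S : Finset ℕ) (N : ℕ) (C0 : ℝ) (hr : ∀ n, rS S n ≤ C0) (h j : ℕ) (hj : j < h) :
    T1 S N ≤ ∑ s ∈ Icc 1 N, rS S (s + j) / ((s : ℝ) + h) + 3 * C0 * h := by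
  have hC0 : 0 ≤ C0 := (rS_nonneg S 0).trans (hr 0)
  have hjR : (j : ℝ) ≤ h := by exact_mod_cast hj.le
  have hj0 : (0 : ℝ) ≤ j := Nat.cast_nonneg _
  have h1 : ∀ n ∈ Icc 1 N, rS S n / (n : ℝ) ≤ (if n ≤ j then C0 else 0) +
      (if n ≤ j then 0 else rS S n / ((n : ℝ) - j + h)) + C0 * h * (1 / (n : ℝ) ^ 2) := by
    intro n hn
    rw [mem_Icc] at hn
    have hn1 : (1 : ℝ) ≤ n := by exact_mod_cast hn.1
    by_cases hc : n ≤ j
    · rw [if_pos hc, if_pos hc]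
      have h2 : rS S n / (n : ℝ) ≤ C0 := by
        rw [div_le_iff₀ (by linarith)]
        have := hr n
        nlinarith
      have h3 : 0 ≤ C0 * h * (1 / (n : ℝ) ^ 2) := by positivity
      linarith
    · rw [if_neg hc, if_neg hc, zero_add]
      have hr0 := rS_nonneg S n
      have hd : (0 : ℝ) < (n : ℝ) - j + h := by linarith
      have e : rS S n / (n : ℝ) - rS S n / ((n : ℝ) - j + h) = rS S n * (h - j) * (1 / (n * (n - j + h))) := by
        field_simp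
        ring
      have h2 : 1 / ((n : ℝ) * (n - j + h)) ≤ 1 / (n : ℝ) ^ 2 := by
        apply one_div_le_one_div_of_le (by positivity)
        nlinarith
      have h3 : rS S n * (h - j) ≤ C0 * h := mul_le_mul (hr n) (by linarith) (by linarith) hC0
      have h4 : rS S n * (h - j) * (1 / (n * (n - j + h))) ≤ C0 * h * (1 / (n : ℝ) ^ 2) :=
        mul_le_mul h3 h2 (by positivity) (by positivity)
      linarith
  have h2 := sum_le_sum h1
  rw [sum_add_distrib, sum_add_distrib, ← mul_sum] at h2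
  have h3 : ∑ n ∈ Icc 1 N, (if n ≤ j then C0 else 0) ≤ C0 * h := by
    rw [← sum_filter, sum_const, nsmul_eq_mul]
    have h7 : ((Icc 1 N).filter (fun n => n ≤ j)).card ≤ j := by
      calc ((Icc 1 N).filter (fun n => n ≤ j)).card ≤ (Icc 1 j).card := by
            apply card_le_card
            intro n hn
            rw [mem_filter, mem_Icc] at hn
            rw [mem_Icc]
            exact ⟨hn.1.1, hn.2⟩
        _ = j := by rw [Nat.card_Icc]; omega
    have h8 : (((Icc 1 N).filter (fun n => n ≤ j)).card : ℝ) ≤ j := by exact_mod_cast h7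
    nlinarith
  have h4 : ∑ n ∈ Icc 1 N, (if n ≤ j then 0 else rS S n / ((n : ℝ) - j + h)) ≤
      ∑ s ∈ Icc 1 N, rS S (s + j) / ((s : ℝ) + h) := by
    have h5 : ∑ s ∈ Icc 1 N, rS S (s + j) / ((s : ℝ) + h) =
        ∑ n ∈ (Icc 1 N).image (fun s : ℕ => (s + j : ℕ)), rS S n / ((n : ℝ) - j + h) := by
      rw [sum_image]
      · apply sum_congr rfl
        intro s _
        push_cast
        ring_nf
      · intro x _ y _ hxy
        simpa using hxy
    rw [h5]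
    have h6 : ∑ n ∈ Icc 1 N, (if n ≤ j then 0 else rS S n / ((n : ℝ) - j + h)) =
        ∑ n ∈ (Icc 1 N).filter (fun n => ¬ n ≤ j), rS S n / ((n : ℝ) - j + h) := by
      rw [sum_filter]
      apply sum_congr rfl
      intro n _
      by_cases hc : n ≤ j <;> simp [hc]
    rw [h6]
    apply sum_le_sum_of_subset_of_nonneg
    · intro n hn
      rw [mem_filter, mem_Icc] at hn
      rw [mem_image]
      refine ⟨n - j, ?_, ?_⟩
      · rw [mem_Icc]
        omega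
      · omega
    · intro n hn _
      rw [mem_image] at hn
      obtain ⟨s, _, rfl⟩ := hn
      apply div_nonneg (rS_nonneg _ _)
      push_cast
      have : (0 : ℝ) ≤ s := Nat.cast_nonneg _
      linarith
  have h5 := Icc_sum_inv_sq N
  have h6 : C0 * h * ∑ n ∈ Icc 1 N, 1 / (n : ℝ) ^ 2 ≤ C0 * h * 2 :=
    mul_le_mul_of_nonneg_left h5 (by positivity)
  unfold T1
  linarith

theorem T1_le (S : Finset ℕ) (N : ℕ) (C0 : ℝ) (hr : ∀ n, rS S n ≤ C0) (h : ℕ) (hh : 0 < h) :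
    T1 S N ≤ ∑ s ∈ Icc 1 N, Rw S h s * (1 / ((s : ℝ) + h)) + 3 * C0 * h := by
  have hhR : (0 : ℝ) < h := by exact_mod_cast hh
  have h1 : ∑ j ∈ range h, T1 S N ≤ ∑ j ∈ range h, (∑ s ∈ Icc 1 N, rS S (s + j) / ((s : ℝ) + h) + 3 * C0 * h) := by
    apply sum_le_sum
    intro j hj
    rw [mem_range] at hj
    exact T1_le_j S N C0 hr h j hj
  rw [sum_const, card_range, nsmul_eq_mul, sum_add_distrib, sum_const, card_range, nsmul_eq_mul, sum_comm] at h1
  have h2 : ∑ s ∈ Icc 1 N, Rw S h s * (1 / ((s : ℝ) + h)) =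
      (∑ s ∈ Icc 1 N, ∑ j ∈ range h, rS S (s + j) / ((s : ℝ) + h)) / h := by
    rw [sum_div]
    apply sum_congr rfl
    intro s _
    unfold Rw
    rw [← sum_div]
    field_simp
  rw [h2]
  have h3 : T1 S N ≤ ((∑ s ∈ Icc 1 N, ∑ j ∈ range h, rS S (s + j) / ((s : ℝ) + h)) + h * (3 * C0 * h)) / h := by
    rw [le_div_iff₀ hhR]
    linarith
  refine h3.trans (le_of_eq ?_)
  field_simp

theorem pair_sum_ge (S : Finset ℕ) (N : ℕ) (hS : ∀ a ∈ S, 1 ≤ a ∧ a ≤ N) :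
    T1 S N ≤ ∑ a ∈ S, ∑ b ∈ S, 1 / ((a : ℝ) + b) := by
  have h1 := sum_rS S N hS (fun n => 1 / (n : ℝ))
  have h2 : ∑ a ∈ S, ∑ b ∈ S, 1 / ((a : ℝ) + b) = ∑ a ∈ S, ∑ b ∈ S, 1 / (((a + b : ℕ)) : ℝ) := by
    push_cast
    rfl
  rw [h2, h1]
  unfold T1
  have h3 : ∀ n ∈ Icc 1 N, rS S n / (n : ℝ) = rS S n * (1 / (n : ℝ)) := fun n _ => by ring
  rw [sum_congr rfl h3]
  apply sum_le_sum_of_subset_of_nonneg
  · intro n hn
    rw [mem_Icc] at hn
    rw [mem_range]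
    omega
  · intro n _ _
    exact mul_nonneg (rS_nonneg _ _) (by positivity)

theorem Rw_nonneg (S : Finset ℕ) (h s : ℕ) : 0 ≤ Rw S h s := by
  unfold Rw
  exact div_nonneg (sum_nonneg fun _ _ => rS_nonneg _ _) (Nat.cast_nonneg _)

theorem Rw_le (S : Finset ℕ) (C0 : ℝ) (hr : ∀ n, rS S n ≤ C0) (h s : ℕ) (hh : 0 < h) :
    Rw S h s ≤ C0 := by
  have hhR : (0 : ℝ) < h := by exact_mod_cast hh
  unfold Rw
  rw [div_le_iff₀ hhR]
  have h1 : ∑ j ∈ range h, rS S (s + j) ≤ ∑ j ∈ range h, C0 := sum_le_sum fun _ _ => hr _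
  rw [sum_const, card_range, nsmul_eq_mul] at h1
  linarith

theorem rho_sum_le (S : Finset ℕ) (N : ℕ) (C0 : ℝ) (hr : ∀ n, rS S n ≤ C0) (h : ℕ) (hh : 0 < h)
    (Rst : ℝ) :
    ∑ s ∈ Icc 1 N, (Rw S h s - Rst) ^ 2 / s ≤
      ∑ s ∈ Icc 1 N, (Rw S h s - Rst) ^ 2 * (1 / ((s : ℝ) + h)) + 2 * h * (C0 + |Rst|) ^ 2 := by
  have hC0 : 0 ≤ C0 := (rS_nonneg S 0).trans (hr 0)
  have hhR : (0 : ℝ) < h := by exact_mod_cast hh
  have h1 : ∀ s ∈ Icc 1 N, (Rw S h s - Rst) ^ 2 / (s : ℝ) ≤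
      (Rw S h s - Rst) ^ 2 * (1 / ((s : ℝ) + h)) + (C0 + |Rst|) ^ 2 * h * (1 / (s : ℝ) ^ 2) := by
    intro s hs
    rw [mem_Icc] at hs
    have hs1 : (1 : ℝ) ≤ s := by exact_mod_cast hs.1
    have e : (Rw S h s - Rst) ^ 2 / (s : ℝ) - (Rw S h s - Rst) ^ 2 * (1 / ((s : ℝ) + h)) =
        (Rw S h s - Rst) ^ 2 * h * (1 / (s * (s + h))) := by
      field_simp
      ring
    have h2 : 1 / ((s : ℝ) * (s + h)) ≤ 1 / (s : ℝ) ^ 2 := by
      apply one_div_le_one_div_of_le (by positivity)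
      nlinarith
    have h3 : (Rw S h s - Rst) ^ 2 ≤ (C0 + |Rst|) ^ 2 := by
      rw [← sq_abs]
      apply pow_le_pow_left₀ (abs_nonneg _)
      refine (abs_sub _ _).trans ?_
      rw [abs_of_nonneg (Rw_nonneg _ _ _)]
      have := Rw_le S C0 hr h s hh
      linarith
    have h4 : (Rw S h s - Rst) ^ 2 * h ≤ (C0 + |Rst|) ^ 2 * h := mul_le_mul_of_nonneg_right h3 hhR.le
    have h5 : (Rw S h s - Rst) ^ 2 * h * (1 / (s * (s + h))) ≤ (C0 + |Rst|) ^ 2 * h * (1 / (s : ℝ) ^ 2) :=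
      mul_le_mul h4 h2 (by positivity) (by positivity)
    linarith
  refine (sum_le_sum h1).trans ?_
  rw [sum_add_distrib, ← mul_sum]
  have h2 := Icc_sum_inv_sq N
  have h3 : (C0 + |Rst|) ^ 2 * h * ∑ s ∈ Icc 1 N, 1 / (s : ℝ) ^ 2 ≤ (C0 + |Rst|) ^ 2 * h * 2 :=
    mul_le_mul_of_nonneg_left h2 (by positivity)
  linarith

end Pool.Agent.Helper80.ET
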